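import Mathlib
set_option autoImplicit false

/-!
Basic notions for polyhedra in `ι → ℝ`: maximisers, exposed edges, steps of the simplex method, steps
of the shadow vertex rule, and the lemma that a path of shadow steps cannot jump over a shadow vertex.
-/

namespace Pool.Agent.Helper27.Sh

open Finset

variable {ι : Type} [Fintype ι]

/-- `x` maximises `u` over `P` -/
def Maxi (P : Set (ι → ℝ)) (u x : ι → ℝ) : Prop := x ∈ P ∧ ∀ y ∈ P, u ⬝ᵥ y ≤ u ⬝ᵥ x

/-- `x` is the only maximiser of `u` over `P` -/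
def OnlyMax (P : Set (ι → ℝ)) (u x : ι → ℝ) : Prop :=
  x ∈ P ∧ ∀ y ∈ P, y ≠ x → u ⬝ᵥ y < u ⬝ᵥ x

/-- the segment is an exposed edge of `P` -/
def Edge (P : Set (ι → ℝ)) (x y : ι → ℝ) : Prop :=
  ∃ u : ι → ℝ, ∀ z, z ∈ segment ℝ x y ↔ Maxi P u z

/-- an improving edge -/
def Step (P : Set (ι → ℝ)) (c x y : ι → ℝ) : Prop := Edge P x y ∧ c ⬝ᵥ x < c ⬝ᵥ y

/-- a step of the shadow vertex rule with the auxiliary function `w` -/
def ShStep (P : Set (ι → ℝ)) (c w x y : ι → ℝ) : Prop :=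
  (∃ μ : ℝ, OnlyMax P (w + μ • c) x) ∧ ∃ ν : ℝ, Maxi P (w + ν • c) x ∧ Maxi P (w + ν • c) y

theorem OnlyMax.maxi {P : Set (ι → ℝ)} {u x : ι → ℝ} (h : OnlyMax P u x) : Maxi P u x :=
  ⟨h.1, fun y hy => by
    by_cases e : y = x
    · rw [e]
    · exact (h.2 y hy e).le⟩

theorem Maxi.eq_of_only {P : Set (ι → ℝ)} {u x y : ι → ℝ} (h : OnlyMax P u x) (hy : Maxi P u y) :
    y = x := by
  by_contra e
  exact absurd (h.2 y hy.1 e) (not_lt.2 (hy.2 x h.1))

theorem Edge.left {P : Set (ι → ℝ)} {x y : ι → ℝ} (h : Edge P x y) : x ∈ P := by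
  obtain ⟨u, hu⟩ := h
  exact ((hu x).1 (left_mem_segment ℝ x y)).1

theorem Edge.right {P : Set (ι → ℝ)} {x y : ι → ℝ} (h : Edge P x y) : y ∈ P := by
  obtain ⟨u, hu⟩ := h
  exact ((hu y).1 (right_mem_segment ℝ x y)).1

theorem Edge.symm {P : Set (ι → ℝ)} {x y : ι → ℝ} (h : Edge P x y) : Edge P y x := by
  obtain ⟨u, hu⟩ := h
  exact ⟨u, fun z => by rw [segment_symm]; exact hu z⟩

/-- the left end of an exposed edge is an extreme point -/
theorem Edge.ext_left {P : Set (ι → ℝ)} {x y : ι → ℝ} (h : Edge P x y) :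
    x ∈ P.extremePoints ℝ := by
  obtain ⟨u, hu⟩ := h
  have hx := (hu x).1 (left_mem_segment ℝ x y)
  rw [mem_extremePoints]
  refine ⟨hx.1, fun p hp q hq hpq => ?_⟩
  obtain ⟨a, b, ha, hb, hab, e⟩ := hpq
  have h1 := hx.2 p hp
  have h2 := hx.2 q hq
  have h3 : u ⬝ᵥ x = a * (u ⬝ᵥ p) + b * (u ⬝ᵥ q) := by
    rw [← e, dotProduct_add, dotProduct_smul, dotProduct_smul, smul_eq_mul, smul_eq_mul]
  have hp' : u ⬝ᵥ p = u ⬝ᵥ x := by
    apply le_antisymm h1
    by_contra hc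
    push Not at hc
    have : a * (u ⬝ᵥ p) + b * (u ⬝ᵥ q) < a * (u ⬝ᵥ x) + b * (u ⬝ᵥ x) := by
      have := mul_lt_mul_of_pos_left hc ha
      have := mul_le_mul_of_nonneg_left h2 hb.le
      linarith
    rw [← add_mul, hab, one_mul, ← h3] at this
    exact lt_irrefl _ this
  have hq' : u ⬝ᵥ q = u ⬝ᵥ x := by
    apply le_antisymm h2
    by_contra hc
    push Not at hc
    have : a * (u ⬝ᵥ p) + b * (u ⬝ᵥ q) < a * (u ⬝ᵥ x) + b * (u ⬝ᵥ x) := by
      have := mul_lt_mul_of_pos_left hc hb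
      have := mul_le_mul_of_nonneg_left h1 ha.le
      linarith
    rw [← add_mul, hab, one_mul, ← h3] at this
    exact lt_irrefl _ this
  have hpm : p ∈ segment ℝ x y := (hu p).2 ⟨hp, fun z hz => by rw [hp']; exact hx.2 z hz⟩
  have hqm : q ∈ segment ℝ x y := (hu q).2 ⟨hq, fun z hz => by rw [hq']; exact hx.2 z hz⟩
  rw [segment_eq_image'] at hpm hqm
  obtain ⟨s, hs, hse⟩ := hpm
  obtain ⟨r, hr, hre⟩ := hqm
  dsimp only at hse hre
  have key : ∀ j, (a * s + b * r) * (y j - x j) = 0 := by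
    intro j
    have e1 := congrFun e j
    have e2 := congrFun hse j
    have e3 := congrFun hre j
    simp only [Pi.add_apply, Pi.smul_apply, Pi.sub_apply, smul_eq_mul] at e1 e2 e3
    rw [← e2, ← e3] at e1
    have : a * x j + b * x j = x j := by rw [← add_mul, hab, one_mul]
    linarith
  by_cases hxy : y = x
  · rw [hxy, sub_self, smul_zero, add_zero] at hse hre
    exact ⟨hse.symm, hre.symm⟩
  · obtain ⟨j, hj⟩ := Function.ne_iff.1 hxy
    have h0 : a * s + b * r = 0 := by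
      rcases mul_eq_zero.1 (key j) with h | h
      · exact h
      · exact absurd (sub_eq_zero.1 h) hj
    have h1 := mul_nonneg ha.le hs.1
    have h2 := mul_nonneg hb.le hr.1
    have hs0 : s = 0 := by
      rcases mul_eq_zero.1 (le_antisymm (by linarith) h1) with h | h
      · exact absurd h ha.ne'
      · exact h
    have hr0 : r = 0 := by
      rcases mul_eq_zero.1 (le_antisymm (by linarith) h2) with h | h
      · exact absurd h hb.ne'
      · exact h
    rw [hs0, zero_smul, add_zero] at hse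
    rw [hr0, zero_smul, add_zero] at hre
    exact ⟨hse.symm, hre.symm⟩

theorem Edge.ext_right {P : Set (ι → ℝ)} {x y : ι → ℝ} (h : Edge P x y) :
    y ∈ P.extremePoints ℝ := h.symm.ext_left

/-- a path of shadow steps cannot jump over a shadow vertex -/
theorem no_jump {P : Set (ι → ℝ)} {c w x x' y : ι → ℝ} {ν : ℝ} (h3 : Maxi P (w + ν • c) x)
    (h4 : Maxi P (w + ν • c) x') (h1 : c ⬝ᵥ x ≤ c ⬝ᵥ y) (h2 : c ⬝ᵥ y ≤ c ⬝ᵥ x') {μ : ℝ}
    (hy : OnlyMax P (w + μ • c) y) : y = x ∨ y = x' := by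
  have key : ∀ (z : ι → ℝ) (r : ℝ), (w + r • c) ⬝ᵥ z = w ⬝ᵥ z + r * (c ⬝ᵥ z) := by
    intro z r
    rw [add_dotProduct, smul_dotProduct, smul_eq_mul]
  by_contra hcon
  push Not at hcon
  have e1 := hy.2 x h3.1 (Ne.symm hcon.1)
  have e2 := hy.2 x' h4.1 (Ne.symm hcon.2)
  have e3 := h3.2 y hy.1
  have e4 := h4.2 y hy.1
  rw [key, key] at e1 e2 e3 e4
  rcases le_total ν μ with h | h
  · nlinarith [mul_le_mul_of_nonneg_left h2 (sub_nonneg.2 h)]
  · nlinarith [mul_le_mul_of_nonneg_left h1 (sub_nonneg.2 h)]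

/-- some step of the path crosses the level of `y` -/
theorem exists_cross {N : ℕ} (f : ℕ → ℝ) (a : ℝ) (h0 : f 0 ≤ a) (hN : a ≤ f N) (hN0 : 0 < N) :
    ∃ i < N, f i ≤ a ∧ a ≤ f (i + 1) := by
  by_contra hcon
  push Not at hcon
  have : ∀ i ≤ N, f i ≤ a ∧ (0 < i → f i < a) := by
    intro i
    induction i with
    | zero => intro _; exact ⟨h0, fun h => absurd h (lt_irrefl _)⟩
    | succ i ih =>
      intro hi
      have h1 := (ih (by omega)).1
      have h2 := hcon i (by omega) h1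
      exact ⟨h2.le, fun _ => h2⟩
  exact absurd ((this N le_rfl).2 hN0) (not_lt.2 hN)

end Pool.Agent.Helper27.Sh
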