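import Pool.Agent.Helper27.Sh.Short2
set_option autoImplicit false
set_option linter.unusedSectionVars false
set_option linter.unusedVariables false
set_option linter.unusedSimpArgs false

/-!
The linear programs: `k` gadgets in series.
-/

namespace Pool.Agent.Helper27.Sh

open Finset

/-- the feasible set -/
def feas {κ ι : Type} [Fintype ι] (A : κ → ι → ℤ) (b : κ → ℤ) : Set (ι → ℝ) :=
  {x | (∀ j, 0 ≤ x j) ∧ ∀ i, ∑ j, (A i j : ℝ) * x j ≤ b i}

/-- the data of the gadget -/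
def gA (m : ℕ) (r : Fin (m + 1) × Bool) (j : Fin (m + 1)) : ℤ :=
  if r.2 then 2 * zc m (r.1 + 1) j - zc m r.1 j else -2 * zc m (r.1 + 1) j - zc m r.1 j

def gb (m : ℕ) (r : Fin (m + 1) × Bool) : ℤ := if r.2 then bb m r.1 else 2

def gc (m : ℕ) (j : Fin (m + 1)) : ℤ := 2 ^ m * zc m (m + 1) j

theorem gc_cc (m : ℕ) : (fun j => (gc m j : ℝ)) = cc m := by
  ext j; simp [gc, cc]

theorem feas_gadget (m : ℕ) : feas (gA m) (gb m) = Gd m := by
  ext x
  have h1 : ∀ i : Fin (m + 1), ∑ j, (gA m (i, true) j : ℝ) * x j =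
      2 * Z m x (i + 1) - Z m x i := by
    intro i
    simp only [gA, if_true, Z, mul_sum, ← sum_sub_distrib]
    refine sum_congr rfl fun j _ => ?_
    push_cast
    ring
  have h2 : ∀ i : Fin (m + 1), ∑ j, (gA m (i, false) j : ℝ) * x j =
      -2 * Z m x (i + 1) - Z m x i := by
    intro i
    simp only [gA, Bool.false_eq_true, if_false, Z, mul_sum, ← sum_sub_distrib]
    refine sum_congr rfl fun j _ => ?_
    push_cast
    ring
  constructor
  · rintro ⟨h3, h4⟩
    refine ⟨h3, fun i hi => ?_, fun i hi => ?_⟩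
    · have := h4 (⟨i, by omega⟩, true)
      rw [h1] at this
      simpa [gb] using this
    · have := h4 (⟨i, by omega⟩, false)
      rw [h2] at this
      simpa [gb] using this
  · rintro ⟨h3, h4, h5⟩
    refine ⟨h3, ?_⟩
    rintro ⟨i, s⟩
    cases s
    · rw [h2]
      have := h5 i (by omega)
      simpa [gb] using this
    · rw [h1]
      have := h4 i (by omega)
      simpa [gb] using this

/-- the data of the serial composition -/
def serA {κ ι κ' ι' : Type} (K : ℤ) (A : κ → ι → ℤ) (b : κ → ℤ) (A' : κ' → ι' → ℤ) :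
    κ ⊕ κ' → ι ⊕ ι' → ℤ
  | Sum.inl r, Sum.inl i => A r i
  | Sum.inl r, Sum.inr _ => -(K * b r)
  | Sum.inr _, Sum.inl _ => 0
  | Sum.inr r, Sum.inr i => A' r i

theorem feas_ser {κ ι κ' ι' : Type} [Fintype ι] [Fintype ι'] {K : ℤ} (hK : 0 ≤ K)
    (A : κ → ι → ℤ) (b : κ → ℤ) (A' : κ' → ι' → ℤ) (b' : κ' → ℤ) :
    feas (serA K A b A') (Sum.elim b b') = ser (K : ℝ) (feas A b) (feas A' b') := by
  ext z
  have hK' : (0 : ℝ) ≤ K := by exact_mod_cast hK
  have h1 : ∀ r : κ, ∑ j, (serA K A b A' (Sum.inl r) j : ℝ) * z j =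
      ∑ i, (A r i : ℝ) * z (Sum.inl i) - (K : ℝ) * b r * ∑ j, z (Sum.inr j) := by
    intro r
    rw [Fintype.sum_sum_type]
    simp only [serA, mul_sum]
    push_cast
    simp only [neg_mul, sum_neg_distrib]
    ring
  have h2 : ∀ r : κ', ∑ j, (serA K A b A' (Sum.inr r) j : ℝ) * z j =
      ∑ i, (A' r i : ℝ) * z (Sum.inr i) := by
    intro r
    rw [Fintype.sum_sum_type]
    simp [serA]
  constructor
  · rintro ⟨h3, h4⟩
    have hs : 0 ≤ (K : ℝ) * ∑ j, z (Sum.inr j) :=
      mul_nonneg hK' (sum_nonneg fun j _ => h3 (Sum.inr j))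
    have hs' : (1 + (K : ℝ) * ∑ j, z (Sum.inr j)) ≠ 0 := by linarith
    refine ⟨(1 + (K : ℝ) * ∑ j, z (Sum.inr j))⁻¹ • (z ∘ Sum.inl), ⟨fun j => ?_, fun r => ?_⟩,
      z ∘ Sum.inr, ⟨fun j => h3 _, fun r => ?_⟩, ?_⟩
    · exact mul_nonneg (by positivity) (h3 _)
    · have h5 := h4 (Sum.inl r)
      rw [h1] at h5
      simp only [Sum.elim_inl] at h5
      have h6 : ∑ j, (A r j : ℝ) * (((1 + (K : ℝ) * ∑ j, z (Sum.inr j))⁻¹ • (z ∘ Sum.inl)) j) =
          (1 + (K : ℝ) * ∑ j, z (Sum.inr j))⁻¹ * ∑ j, (A r j : ℝ) * z (Sum.inl j) := by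
        rw [mul_sum univ (fun j => (A r j : ℝ) * z (Sum.inl j))]
        refine sum_congr rfl fun j _ => ?_
        simp only [Pi.smul_apply, Function.comp, smul_eq_mul]
        ring
      rw [h6, inv_mul_le_iff₀ (by linarith)]
      linarith
    · have h5 := h4 (Sum.inr r)
      rw [h2] at h5
      exact h5
    · ext j
      rcases j with j | j
      · simp only [pt, Sum.elim_inl, Pi.smul_apply, Function.comp, smul_eq_mul]
        rw [mul_inv_cancel_left₀ hs']
      · simp [pt]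
  · rintro ⟨p, hp, y, hy, rfl⟩
    have hs : 0 ≤ (K : ℝ) * ∑ j, y j := mul_nonneg hK' (sum_nonneg fun j _ => hy.1 _)
    refine ⟨fun j => ?_, fun r => ?_⟩
    · rcases j with j | j
      · exact mul_nonneg (by linarith) (hp.1 j)
      · exact hy.1 j
    · rcases r with r | r
      · rw [h1]
        simp only [Sum.elim_inl, pt, Sum.elim_inr, Pi.smul_apply, smul_eq_mul]
        have h3 := mul_le_mul_of_nonneg_left (hp.2 r) (by linarith : 0 ≤ 1 + (K : ℝ) * ∑ j, y j)
        have h4 : ∀ s : ℝ, ∑ i, (A r i : ℝ) * (s * p i) = s * ∑ i, (A r i : ℝ) * p i := by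
          intro s
          rw [mul_sum]
          exact sum_congr rfl fun j _ => by ring
        rw [h4]
        linarith
      · rw [h2]
        simpa [pt] using hy.2 r

theorem abs_zcZ {m i : ℕ} (hi : i ≤ m + 1) (j : Fin (m + 1)) : |zc m i j| ≤ 3 * 16 ^ (m + 1) := by
  have := abs_zc hi j
  exact_mod_cast this

theorem gA_abs (m : ℕ) (r : Fin (m + 1) × Bool) (j : Fin (m + 1)) :
    |gA m r j| ≤ 9 * 32 ^ (m + 1) := by
  have h1 := abs_le.1 (abs_zcZ (m := m) (i := r.1 + 1) (by omega) j)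
  have h2 := abs_le.1 (abs_zcZ (m := m) (i := r.1) (by omega) j)
  have h3 : (16 : ℤ) ^ (m + 1) ≤ 32 ^ (m + 1) := pow_le_pow_left₀ (by norm_num) (by norm_num) _
  rw [gA, abs_le]
  split_ifs <;> constructor <;> linarith [h1.1, h1.2, h2.1, h2.2]

theorem gc_abs (m : ℕ) (j : Fin (m + 1)) : |gc m j| ≤ 3 * 32 ^ (m + 1) := by
  rw [gc, abs_mul, abs_of_pos (by positivity : (0 : ℤ) < 2 ^ m)]
  have h1 := abs_zcZ (m := m) (i := m + 1) le_rfl j
  have h2 : (32 : ℤ) ^ (m + 1) = 2 * (2 ^ m * 16 ^ (m + 1)) := by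
    rw [show (32 : ℤ) = 2 * 16 by norm_num, mul_pow, pow_succ 2]
    ring
  have h3 : (2 : ℤ) ^ m * |zc m (m + 1) j| ≤ 2 ^ m * (3 * 16 ^ (m + 1)) :=
    mul_le_mul_of_nonneg_left h1 (by positivity)
  have h4 : (0 : ℤ) < 2 ^ m * 16 ^ (m + 1) := by positivity
  linarith

theorem gb_bd (m : ℕ) (r : Fin (m + 1) × Bool) : 1 ≤ gb m r ∧ gb m r ≤ 6 := by
  rw [gb, bb]
  split_ifs <;> norm_num

theorem build (m k : ℕ) : ∃ (κ ι : Type) (_ : Fintype κ) (_ : Fintype ι) (A : κ → ι → ℤ)
    (b : κ → ℤ) (c : ι → ℤ) (t : ι → ℝ),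
    Fintype.card κ = 2 * (m + 1) * (k + 1) ∧ Fintype.card ι = (m + 1) * (k + 1) ∧
    (∀ i j, |A i j| ≤ 9 * 32 ^ (m + 1)) ∧ (∀ i, 1 ≤ b i ∧ b i ≤ 6) ∧
    (∀ j, |c j| ≤ (k + 1) * (9 * 64 ^ (m + 1))) ∧
    Good (feas A b) (fun j => (c j : ℝ)) t ((k + 1) * (2 ^ (m + 2) - 1)) ∧
    Slow (feas A b) (fun j => (c j : ℝ)) t (k + 1) (2 ^ m) ∧
    ShortP (feas A b) (fun j => (c j : ℝ)) t ((k + 1) * (2 * m + 1)) := by
  have h32 : (32 : ℤ) ^ (m + 1) ≤ 64 ^ (m + 1) := pow_le_pow_left₀ (by norm_num) (by norm_num) _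
  have h32p : (0 : ℤ) < 32 ^ (m + 1) := by positivity
  induction k with
  | zero =>
    refine ⟨Fin (m + 1) × Bool, Fin (m + 1), inferInstance, inferInstance, gA m, gb m, gc m, tp m,
      by simp; ring, by simp, gA_abs m, gb_bd m, fun j => ?_, ?_, ?_, ?_⟩
    · have := gc_abs m j
      push_cast
      linarith
    · rw [feas_gadget, gc_cc]
      convert good_gadget m using 1
      push_cast
      ring
    · rw [feas_gadget, gc_cc]
      refine slow_one ?_ (slow_gadget m)
      intro e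
      have h1 := (good_gadget m).val
      have h2 := (good_gadget m).pos
      rw [e, dotProduct_zero] at h1
      linarith
    · rw [feas_gadget, gc_cc]
      convert short_gadget m using 1
      ring
  | succ k ih =>
    obtain ⟨κ, ι, fκ, fι, A, b, c, t, h1, h2, h3, h4, h5, h6, h7, h8⟩ := ih
    have hK : (0 : ℤ) ≤ 32 ^ (m + 1) := by positivity
    have hKr : (0 : ℝ) ≤ 32 ^ (m + 1) := by positivity
    have hG := good_gadget m
    have hfe : feas (serA (32 ^ (m + 1)) A b (gA m)) (Sum.elim b (gb m)) =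
        ser (32 ^ (m + 1)) (feas A b) (Gd m) := by
      rw [feas_ser hK, feas_gadget]
      push_cast
      rfl
    have hce : (fun j => ((Sum.elim c (fun j => gc m j - 32 ^ (m + 1) * ((k + 1) *
        (2 ^ (m + 2) - 1))) : ι ⊕ Fin (m + 1) → ℤ) j : ℝ)) =
        serc (32 ^ (m + 1)) ((k + 1) * (2 ^ (m + 2) - 1)) (fun j => (c j : ℝ)) (cc m) := by
      ext j
      rcases j with j | j
      · simp [serc]
      · simp only [Sum.elim_inr, serc]
        rw [← gc_cc]
        push_cast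
        ring
    refine ⟨κ ⊕ (Fin (m + 1) × Bool), ι ⊕ Fin (m + 1), inferInstance, inferInstance,
      serA (32 ^ (m + 1)) A b (gA m), Sum.elim b (gb m), Sum.elim c (fun j => gc m j -
        32 ^ (m + 1) * ((k + 1) * (2 ^ (m + 2) - 1))), pt (32 ^ (m + 1)) t (tp m),
      ?_, ?_, ?_, ?_, ?_, ?_, ?_, ?_⟩
    · rw [Fintype.card_sum, h1]; simp; ring
    · rw [Fintype.card_sum, h2]; simp; ring
    · rintro (i | i) (j | j)
      · exact h3 i j
      · rw [serA, abs_neg, abs_mul, abs_of_pos h32p]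
        have := h4 i
        rw [abs_of_pos (by linarith : 0 < b i)]
        nlinarith
      · rw [serA, abs_zero]; positivity
      · exact gA_abs m i j
    · rintro (i | i)
      · exact h4 i
      · exact gb_bd m i
    · rintro (j | j)
      · refine (h5 j).trans ?_
        push_cast
        have : (0 : ℤ) < 9 * 64 ^ (m + 1) := by positivity
        nlinarith
      · rw [Sum.elim_inr]
        have h9 := abs_le.1 (gc_abs m j)
        have h10 : (32 : ℤ) ^ (m + 1) * ((k + 1) * (2 ^ (m + 2) - 1)) =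
            (k + 1) * (2 * 64 ^ (m + 1) - 32 ^ (m + 1)) := by
          rw [show (64 : ℤ) = 32 * 2 by norm_num, mul_pow]
          ring
        rw [h10]
        have h11 : (0 : ℤ) ≤ k := by positivity
        have h12 : (0 : ℤ) ≤ k * 64 ^ (m + 1) := by positivity
        have h13 : (0 : ℤ) ≤ k * 32 ^ (m + 1) := by positivity
        have h14 : (k : ℤ) * 32 ^ (m + 1) ≤ k * 64 ^ (m + 1) := mul_le_mul_of_nonneg_left h32 h11
        push_cast
        rw [abs_le]
        constructor <;> nlinarith [h9.1, h9.2]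
    · rw [hfe, hce]
      have := good_ser h6 hKr hG (cc_le m)
      convert this using 1
      push_cast
      ring
    · rw [hfe, hce]
      exact slow_ser h6 hKr hG (cc_le m) h7 (slow_gadget m)
    · rw [hfe, hce]
      have := short_ser h6 hKr hG h8 (short_gadget m)
      convert this using 1
      ring

end Pool.Agent.Helper27.Sh
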