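import Pool.Agent.Helper27.Sh.Slow
set_option autoImplicit false
set_option linter.unusedSectionVars false
set_option linter.unusedVariables false
set_option linter.unusedSimpArgs false

/-!
The gadget: a polytope in `ℝ ^ (m + 1)` such that every shadow path from the vertex `0` to the top has
at least `2 ^ m` steps. In the coordinates `Z 1, …, Z (m + 1)` it is given by
`|Z (i + 1)| ≤ 1 + Z i / 2` for `i < m`, `Z (m + 1) ≤ 3 + Z m / 2` and `x ≥ 0`.
-/

namespace Pool.Agent.Helper27.Sh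

open Finset

/-- weights -/
def al (m j : ℕ) : ℤ :=
  if j < m then 4 ^ (m + 2 + j) else 16 ^ (m + 1) + 1 - ∑ i ∈ range m, 4 ^ (m + 2 + i)

/-- the coefficients of the coordinates `Z` -/
def zc (m : ℕ) : ℕ → ℕ → ℤ
  | 0, _ => 0
  | i + 1, j => al m j - if j = i then 16 ^ (m + 1) else 0

/-- the coordinates `Z` -/
def Z (m : ℕ) (x : Fin (m + 1) → ℝ) (i : ℕ) : ℝ := ∑ j : Fin (m + 1), (zc m i j : ℝ) * x j

/-- right hand sides -/
def bb (m i : ℕ) : ℤ := if i < m then 2 else 6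

/-- the gadget -/
def Gd (m : ℕ) : Set (Fin (m + 1) → ℝ) :=
  {x | (∀ j, 0 ≤ x j) ∧ (∀ i ≤ m, 2 * Z m x (i + 1) - Z m x i ≤ bb m i) ∧
    ∀ i ≤ m, -2 * Z m x (i + 1) - Z m x i ≤ 2}

/-- the objective function `2 ^ m Z (m + 1)` of the gadget -/
def cc (m : ℕ) (j : Fin (m + 1)) : ℝ := 2 ^ m * (zc m (m + 1) j : ℝ)

theorem geo (m : ℕ) : 3 * ∑ i ∈ range m, (4 : ℝ) ^ (m + 2 + i) = 16 ^ (m + 1) - 4 ^ (m + 2) := by
  have h : ∀ k : ℕ, 3 * ∑ i ∈ range k, (4 : ℝ) ^ (m + 2 + i) = 4 ^ (m + 2 + k) - 4 ^ (m + 2) := by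
    intro k
    induction k with
    | zero => simp
    | succ k ih =>
      rw [sum_range_succ, mul_add, ih]
      ring
  rw [h m]
  congr 1
  rw [show (16 : ℝ) = 4 ^ 2 by norm_num, ← pow_mul]
  congr 1
  ring

theorem al_lt {m j : ℕ} (h : j < m) : (al m j : ℝ) = 4 ^ (m + 2 + j) := by
  simp [al, h]

theorem al_last (m : ℕ) :
    (al m m : ℝ) = 16 ^ (m + 1) + 1 - ∑ i ∈ range m, (4 : ℝ) ^ (m + 2 + i) := by
  simp [al]

theorem sum_al (m : ℕ) : ∑ j ∈ range (m + 1), (al m j : ℝ) = 16 ^ (m + 1) + 1 := by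
  rw [sum_range_succ, al_last, sum_congr rfl fun j hj => al_lt (mem_range.1 hj)]
  ring

theorem Z_zero (m : ℕ) (x : Fin (m + 1) → ℝ) : Z m x 0 = 0 := by simp [Z, zc]

theorem Z_succ (m : ℕ) (x : Fin (m + 1) → ℝ) (i : Fin (m + 1)) :
    Z m x (i + 1) = ∑ j : Fin (m + 1), (al m j : ℝ) * x j - 16 ^ (m + 1) * x i := by
  have h : ∀ j : Fin (m + 1), (zc m (i + 1) j : ℝ) * x j =
      (al m j : ℝ) * x j - if j = i then 16 ^ (m + 1) * x i else 0 := by
    intro j
    by_cases e : j = i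
    · subst e
      simp [zc]
      ring
    · have : (j : ℕ) ≠ (i : ℕ) := fun h => e (Fin.ext h)
      simp [zc, e, this]
  rw [Z, sum_congr rfl fun j _ => h j, sum_sub_distrib, sum_ite_eq' univ i]
  simp

theorem Z_sum (m : ℕ) (x : Fin (m + 1) → ℝ) :
    ∑ j : Fin (m + 1), (al m j : ℝ) * Z m x (j + 1) = ∑ j : Fin (m + 1), (al m j : ℝ) * x j := by
  simp only [Z_succ, mul_sub, sum_sub_distrib, ← sum_mul]
  rw [Fin.sum_univ_eq_sum_range (fun j => (al m j : ℝ)) (m + 1), sum_al]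
  simp only [mul_left_comm _ ((16 : ℝ) ^ (m + 1)), ← mul_sum]
  ring

theorem x_eq (m : ℕ) (x : Fin (m + 1) → ℝ) (i : Fin (m + 1)) :
    x i = (∑ j : Fin (m + 1), (al m j : ℝ) * Z m x (j + 1) - Z m x (i + 1)) / 16 ^ (m + 1) := by
  rw [Z_sum, Z_succ]
  have : (16 : ℝ) ^ (m + 1) ≠ 0 := by positivity
  field_simp
  ring

theorem Z_ext {m : ℕ} {x y : Fin (m + 1) → ℝ} (h : ∀ i ≤ m, Z m x (i + 1) = Z m y (i + 1)) :
    x = y := by
  ext i
  rw [x_eq m x i, x_eq m y i, h i (by omega)]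
  congr 2
  exact sum_congr rfl fun j _ => by rw [h j (by omega)]

/-- the point with given coordinates `Z` -/
noncomputable def pX (m : ℕ) (Y : ℕ → ℝ) (i : Fin (m + 1)) : ℝ :=
  (∑ j : Fin (m + 1), (al m j : ℝ) * Y (j + 1) - Y (i + 1)) / 16 ^ (m + 1)

theorem Z_pX (m : ℕ) (Y : ℕ → ℝ) (i : ℕ) (hi : i ≤ m) : Z m (pX m Y) (i + 1) = Y (i + 1) := by
  have h0 : (16 : ℝ) ^ (m + 1) ≠ 0 := by positivity
  have := Z_succ m (pX m Y) ⟨i, by omega⟩
  rw [this]
  have h1 : ∑ j : Fin (m + 1), (al m j : ℝ) * pX m Y j =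
      ∑ j : Fin (m + 1), (al m j : ℝ) * Y (j + 1) := by
    simp only [pX, mul_div_assoc', ← sum_div, mul_sub, sum_sub_distrib, ← sum_mul]
    rw [Fin.sum_univ_eq_sum_range (fun j => (al m j : ℝ)) (m + 1), sum_al]
    field_simp
    ring
  rw [h1, pX]
  field_simp
  ring

theorem cc_dot (m : ℕ) (x : Fin (m + 1) → ℝ) : cc m ⬝ᵥ x = 2 ^ m * Z m x (m + 1) := by
  simp only [dotProduct, cc, Z, mul_sum, mul_assoc]

theorem Z_bound {m : ℕ} {x : Fin (m + 1) → ℝ} (hx : x ∈ Gd m) :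
    ∀ i ≤ m, Z m x i ≤ 2 - 2 / 2 ^ i ∧ -(2 - 2 / 2 ^ i) ≤ Z m x i := by
  intro i
  induction i with
  | zero => intro _; rw [Z_zero]; norm_num
  | succ i ih =>
    intro hi
    obtain ⟨h1, h2⟩ := ih (by omega)
    have h3 := hx.2.1 i (by omega)
    have h4 := hx.2.2 i (by omega)
    rw [bb, if_pos (by omega)] at h3
    push_cast at h3
    have h5 : (2 : ℝ) / 2 ^ (i + 1) = (2 / 2 ^ i) / 2 := by rw [pow_succ]; field_simp
    rw [h5]
    constructor <;> linarith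

theorem Z_lt {m : ℕ} {x : Fin (m + 1) → ℝ} (hx : x ∈ Gd m) {i : ℕ} (hi : i ≤ m) :
    -2 < Z m x i ∧ Z m x i < 2 := by
  obtain ⟨h1, h2⟩ := Z_bound hx i hi
  have : (0 : ℝ) < 2 / 2 ^ i := by positivity
  constructor <;> linarith

theorem Z_last {m : ℕ} {x : Fin (m + 1) → ℝ} (hx : x ∈ Gd m) :
    Z m x (m + 1) ≤ 4 - 1 / 2 ^ m ∧ -2 < Z m x (m + 1) := by
  have h1 := (Z_bound hx m le_rfl).1
  have h2 := hx.2.1 m le_rfl
  have h4 := hx.2.2 m le_rfl
  have h5 := (Z_lt hx (le_refl m)).2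
  rw [bb, if_neg (by omega)] at h2
  push_cast at h2
  have : (2 : ℝ) / 2 ^ m = 2 * (1 / 2 ^ m) := by ring
  constructor
  · linarith
  · linarith

theorem sixteen (m : ℕ) : (16 : ℝ) ≤ 16 ^ (m + 1) := by
  calc (16 : ℝ) = 16 ^ 1 := by norm_num
    _ ≤ 16 ^ (m + 1) := pow_le_pow_right₀ (by norm_num) (by omega)

theorem al_pos {m j : ℕ} (hj : j ≤ m) : 0 < (al m j : ℝ) := by
  rcases hj.lt_or_eq with h | h
  · rw [al_lt h]; positivity
  · subst h
    rw [al_last]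
    have := geo j
    have h1 := sixteen j
    have h2 : (0 : ℝ) < 4 ^ (j + 2) := by positivity
    linarith

theorem al_le {m j : ℕ} (hj : j ≤ m) : (al m j : ℝ) ≤ 16 ^ (m + 1) + 1 := by
  have h1 : (al m j : ℝ) ≤ ∑ j ∈ range (m + 1), (al m j : ℝ) :=
    single_le_sum (f := fun j => (al m j : ℝ)) (fun i hi => (al_pos (by
      have := mem_range.1 hi; omega)).le) (mem_range.2 (by omega))
  rwa [sum_al] at h1

/-- a point given by its coordinates is in the gadget -/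
theorem pX_mem {m : ℕ} {Y : ℕ → ℝ} (h0 : Y 0 = 0) (h1 : ∀ i < m, 2 * Y (i + 1) - Y i ≤ 2)
    (h2 : ∀ i < m, -2 * Y (i + 1) - Y i ≤ 2) (h3 : Y (m + 1) = 3 + Y m / 2) : pX m Y ∈ Gd m := by
  have hb : ∀ i ≤ m, Y i < 2 ∧ -2 < Y i := by
    intro i
    induction i with
    | zero => intro _; rw [h0]; norm_num
    | succ i ih =>
      intro hi
      obtain ⟨h4, h5⟩ := ih (by omega)
      have h6 := h1 i (by omega)
      have h7 := h2 i (by omega)
      constructor <;> linarith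
  have hZ : ∀ i ≤ m + 1, Z m (pX m Y) i = Y i := by
    intro i hi
    rcases i with _ | i
    · rw [Z_zero, h0]
    · exact Z_pX m Y i (by omega)
  refine ⟨fun i => ?_, fun i hi => ?_, fun i hi => ?_⟩
  · rw [pX]
    refine div_nonneg ?_ (by positivity)
    rw [Fin.sum_univ_eq_sum_range (fun j => (al m j : ℝ) * Y (j + 1)) (m + 1), sum_range_succ,
      h3, al_last]
    have h4 : -(2 * ∑ i ∈ range m, (4 : ℝ) ^ (m + 2 + i)) ≤
        ∑ j ∈ range m, (al m j : ℝ) * Y (j + 1) := by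
      rw [mul_sum, ← sum_neg_distrib]
      refine sum_le_sum fun j hj => ?_
      rw [al_lt (mem_range.1 hj)]
      have h5 := (hb (j + 1) (by have := mem_range.1 hj; omega)).2
      have h6 : (0 : ℝ) < 4 ^ (m + 2 + j) := by positivity
      nlinarith
    have h5 : Y (i + 1) ≤ 4 := by
      rcases Nat.lt_or_ge (i : ℕ) m with h | h
      · linarith [(hb (i + 1) (by omega)).1]
      · have : (i : ℕ) = m := by omega
        rw [this, h3]
        linarith [(hb m le_rfl).1]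
    have h6 := geo m
    have h7 := sixteen m
    have h8 : (0 : ℝ) < 4 ^ (m + 2) := by positivity
    have h9 := (hb m le_rfl).2
    set S := ∑ i ∈ range m, (4 : ℝ) ^ (m + 2 + i)
    have h10 : 0 < 16 ^ (m + 1) + 1 - S := by linarith
    have h11 : (16 ^ (m + 1) + 1 - S) * 2 ≤ (16 ^ (m + 1) + 1 - S) * (3 + Y m / 2) :=
      mul_le_mul_of_nonneg_left (by linarith) h10.le
    linarith
  · rw [hZ _ (by omega), hZ _ (by omega)]
    rcases hi.lt_or_eq with h | h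
    · rw [bb, if_pos h]
      push_cast
      exact h1 i h
    · subst h
      rw [bb, if_neg (by omega), h3]
      push_cast
      linarith
  · rw [hZ _ (by omega), hZ _ (by omega)]
    rcases hi.lt_or_eq with h | h
    · exact h2 i h
    · subst h
      rw [h3]
      linarith [(hb i le_rfl).2]

/-- the coordinates of the vertex with the signs `σ` -/
noncomputable def Ys (m : ℕ) (σ : ℕ → ℝ) : ℕ → ℝ
  | 0 => 0
  | i + 1 => if i < m then σ i * (1 + Ys m σ i / 2) else 3 + Ys m σ i / 2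

/-- signs -/
def Sgn (σ : ℕ → ℝ) : Prop := ∀ i, σ i = 1 ∨ σ i = -1

theorem Ys_bound {m : ℕ} {σ : ℕ → ℝ} (hσ : Sgn σ) : ∀ i ≤ m, Ys m σ i < 2 ∧ -2 < Ys m σ i := by
  intro i
  induction i with
  | zero => intro _; rw [Ys]; norm_num
  | succ i ih =>
    intro hi
    obtain ⟨h4, h5⟩ := ih (by omega)
    rw [Ys, if_pos (by omega)]
    rcases hσ i with h | h <;> rw [h] <;> constructor <;> linarith

theorem Ys_mem {m : ℕ} {σ : ℕ → ℝ} (hσ : Sgn σ) : pX m (Ys m σ) ∈ Gd m := by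
  refine pX_mem (by rw [Ys]) (fun i hi => ?_) (fun i hi => ?_) (by rw [Ys, if_neg (by omega)])
  · rw [Ys, if_pos hi]
    have := Ys_bound (m := m) hσ i (by omega)
    rcases hσ i with h | h <;> rw [h] <;> linarith
  · rw [Ys, if_pos hi]
    have := Ys_bound (m := m) hσ i (by omega)
    rcases hσ i with h | h <;> rw [h] <;> linarith

end Pool.Agent.Helper27.Sh
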