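import Pool.Agent.Helper27.Sh.Gadget
set_option autoImplicit false
set_option linter.unusedSectionVars false
set_option linter.unusedVariables false
set_option linter.unusedSimpArgs false

/-!
The gadget: every shadow path from `0` to the top has at least `2 ^ m` steps.
-/

namespace Pool.Agent.Helper27.Sh

open Finset

section chain

variable {m : ℕ} {a σ g : ℕ → ℝ}

/-- partial objective functions -/
noncomputable def EE (a g : ℕ → ℝ) (k : ℕ) (Z : ℕ → ℝ) : ℝ :=
  g k / 2 * Z k - ∑ j ∈ range k, a j * Z (j + 1)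

theorem EE_succ (hg : ∀ k, g (k + 1) = 2 * (σ k * g k + a k)) (k : ℕ) (Z : ℕ → ℝ) :
    EE a g (k + 1) Z = σ k * g k * Z (k + 1) - ∑ j ∈ range k, a j * Z (j + 1) := by
  rw [EE, hg, sum_range_succ]
  ring

theorem EE_le (hσ : Sgn σ) (hg : ∀ k, g (k + 1) = 2 * (σ k * g k + a k))
    (hpos : ∀ k ≤ m, 0 < g k) {Z : ℕ → ℝ} (hZ : Z 0 = 0)
    (h1 : ∀ i < m, Z (i + 1) ≤ 1 + Z i / 2) (h2 : ∀ i < m, -Z (i + 1) ≤ 1 + Z i / 2) :
    ∀ k ≤ m, EE a g k Z ≤ EE a g k (Ys m σ) ∧
      (EE a g k Z = EE a g k (Ys m σ) → ∀ j ≤ k, Z j = Ys m σ j) := by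
  intro k
  induction k with
  | zero =>
    intro _
    have h3 : Ys m σ 0 = 0 := by rw [Ys]
    refine ⟨?_, ?_⟩
    · simp [EE, hZ, h3]
    · intro _ j hj
      rw [Nat.le_zero.1 hj, hZ, h3]
  | succ k ih =>
    intro hk
    obtain ⟨h3, h4⟩ := ih (by omega)
    have hgk := hpos k (by omega)
    have e1 : σ k * Z (k + 1) ≤ 1 + Z k / 2 := by
      rcases hσ k with h | h <;> rw [h]
      · rw [one_mul]; exact h1 k (by omega)
      · rw [neg_one_mul]; exact h2 k (by omega)
    have e2 : σ k * Ys m σ (k + 1) = 1 + Ys m σ k / 2 := by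
      rw [Ys, if_pos (by omega)]
      rcases hσ k with h | h <;> rw [h] <;> ring
    have e3 : EE a g (k + 1) Z = g k * (σ k * Z (k + 1) - (1 + Z k / 2)) + g k + EE a g k Z := by
      rw [EE_succ hg, EE]; ring
    have e4 : EE a g (k + 1) (Ys m σ) = g k + EE a g k (Ys m σ) := by
      rw [EE_succ hg, EE]
      linear_combination g k * e2
    have e5 : g k * (σ k * Z (k + 1) - (1 + Z k / 2)) ≤ 0 :=
      mul_nonpos_of_nonneg_of_nonpos hgk.le (by linarith)
    refine ⟨by rw [e3, e4]; linarith, fun h => ?_⟩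
    rw [e3, e4] at h
    have e6 : EE a g k Z = EE a g k (Ys m σ) := by linarith
    have e7 : g k * (σ k * Z (k + 1) - (1 + Z k / 2)) = 0 := by linarith
    have e8 : σ k * Z (k + 1) = 1 + Z k / 2 := by
      rcases mul_eq_zero.1 e7 with h | h
      · exact absurd h hgk.ne'
      · linarith
    have e9 := h4 e6
    intro j hj
    rcases hj.lt_or_eq with h | h
    · exact e9 j (by omega)
    · subst h
      have e10 : σ k * Z (k + 1) = σ k * Ys m σ (k + 1) := by rw [e8, e2, e9 k le_rfl]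
      rcases hσ k with h | h <;> rw [h] at e10 <;> linarith

theorem final_le (hσ : Sgn σ) (hg : ∀ k, g (k + 1) = 2 * (σ k * g k + a k))
    (hpos : ∀ k ≤ m, 0 < g k) {x : Fin (m + 1) → ℝ} (hx : x ∈ Gd m) (hne : x ≠ pX m (Ys m σ)) :
    g m * Z m x (m + 1) - ∑ j ∈ range m, a j * Z m x (j + 1) <
      g m * Z m (pX m (Ys m σ)) (m + 1) - ∑ j ∈ range m, a j * Z m (pX m (Ys m σ)) (j + 1) := by
  have h1 : ∀ i < m, Z m x (i + 1) ≤ 1 + Z m x i / 2 := by
    intro i hi
    have := hx.2.1 i (by omega)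
    rw [bb, if_pos hi] at this
    push_cast at this
    linarith
  have h2 : ∀ i < m, -Z m x (i + 1) ≤ 1 + Z m x i / 2 := by
    intro i hi
    have := hx.2.2 i (by omega)
    linarith
  have h3 : Z m x (m + 1) ≤ 3 + Z m x m / 2 := by
    have := hx.2.1 m le_rfl
    rw [bb, if_neg (by omega)] at this
    push_cast at this
    linarith
  obtain ⟨h4, h5⟩ := EE_le hσ hg hpos (Z_zero m x) h1 h2 m le_rfl
  have hY : ∀ i ≤ m + 1, Z m (pX m (Ys m σ)) i = Ys m σ i := by
    intro i hi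
    rcases i with _ | i
    · rw [Z_zero, Ys]
    · exact Z_pX m _ i (by omega)
  have h6 : Ys m σ (m + 1) = 3 + Ys m σ m / 2 := by rw [Ys, if_neg (by omega)]
  have e1 : g m * Z m x (m + 1) - ∑ j ∈ range m, a j * Z m x (j + 1) =
      g m * (Z m x (m + 1) - (3 + Z m x m / 2)) + 3 * g m + EE a g m (Z m x) := by
    rw [EE]; ring
  have e2 : g m * Z m (pX m (Ys m σ)) (m + 1) - ∑ j ∈ range m, a j * Z m (pX m (Ys m σ)) (j + 1) =
      3 * g m + EE a g m (Ys m σ) := by
    rw [hY _ le_rfl, h6, sum_congr rfl fun j hj => by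
      rw [hY (j + 1) (by have := mem_range.1 hj; omega)], EE]
    ring
  have e3 : g m * (Z m x (m + 1) - (3 + Z m x m / 2)) ≤ 0 :=
    mul_nonpos_of_nonneg_of_nonpos (hpos m le_rfl).le (by linarith)
  rw [e1, e2]
  by_contra hc
  push Not at hc
  have e4 : EE a g m (Z m x) = EE a g m (Ys m σ) := by linarith
  have e5 : g m * (Z m x (m + 1) - (3 + Z m x m / 2)) = 0 := by linarith
  have e6 : Z m x (m + 1) = 3 + Z m x m / 2 := by
    rcases mul_eq_zero.1 e5 with h | h
    · exact absurd h (hpos m le_rfl).ne'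
    · linarith
  have e7 := h5 e4
  apply hne
  refine Z_ext fun i hi => ?_
  rw [hY _ (by omega)]
  rcases hi.lt_or_eq with h | h
  · exact e7 (i + 1) (by omega)
  · subst h
    rw [e6, h6, e7 i le_rfl]

/-- the numbers `g` -/
noncomputable def gg (a σ : ℕ → ℝ) : ℕ → ℝ
  | 0 => a 0 / 2
  | k + 1 => 2 * (σ k * gg a σ k + a k)

theorem gg_pos (hσ : Sgn σ) (ha0 : 0 < a 0)
    (ha : ∀ k < m, 4 ^ (m + 2 + k) - 1 ≤ a k ∧ a k ≤ 4 ^ (m + 2 + k)) :
    ∀ k ≤ m, 0 < gg a σ k ∧ (k < m → gg a σ k ≤ (1 - 1 / 2 / 4 ^ k) * a k) := by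
  intro k
  induction k with
  | zero =>
    intro _
    refine ⟨by rw [gg]; linarith, fun _ => ?_⟩
    rw [gg]
    norm_num
    linarith
  | succ k ih =>
    intro hk
    obtain ⟨h1, h2⟩ := ih (by omega)
    have h3 := h2 (by omega)
    obtain ⟨h4, h5⟩ := ha k (by omega)
    have h6 : (1 : ℝ) < 4 ^ (m + 2 + k) := one_lt_pow₀ (by norm_num) (by omega)
    have hak : 0 < a k := by linarith
    have hε : (0 : ℝ) < 1 / 2 / 4 ^ k := by positivity
    have h7 : -gg a σ k ≤ σ k * gg a σ k ∧ σ k * gg a σ k ≤ gg a σ k := by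
      rcases hσ k with h | h <;> rw [h] <;> constructor <;> linarith
    have hεa := mul_pos hε hak
    rw [sub_mul, one_mul] at h3
    refine ⟨by rw [gg]; linarith, fun hk' => ?_⟩
    obtain ⟨h8, h9⟩ := ha (k + 1) hk'
    have e1 : gg a σ (k + 1) ≤ (4 - 2 * (1 / 2 / 4 ^ k)) * a k := by
      rw [gg]; linarith
    have hε1 : (1 : ℝ) / 2 / 4 ^ k ≤ 1 := by
      rw [div_div, div_le_one (by positivity)]
      have : (1 : ℝ) ≤ 4 ^ k := one_le_pow₀ (by norm_num)
      linarith
    have e2 : (4 - 2 * (1 / 2 / 4 ^ k)) * a k ≤ (4 - 2 * (1 / 2 / 4 ^ k)) * (4 : ℝ) ^ (m + 2 + k) :=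
      mul_le_mul_of_nonneg_left h5 (by linarith)
    set A : ℝ := 4 ^ (m + 2 + (k + 1)) with hA
    set ε : ℝ := 1 / 2 / 4 ^ (k + 1) with hε'
    have e3 : (1 : ℝ) / 2 / 4 ^ k = 4 * ε := by rw [hε', pow_succ]; field_simp
    have e4 : A = 4 * 4 ^ (m + 2 + k) := by rw [hA]; ring
    have e5 : 1 ≤ ε * A := by
      have : ε * A = 1 / 2 * 4 ^ (m + 2) := by
        rw [hε', hA, show m + 2 + (k + 1) = (m + 2) + (k + 1) by ring, pow_add (4 : ℝ) (m + 2)]
        field_simp
      rw [this]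
      have : (4 : ℝ) ^ 2 ≤ 4 ^ (m + 2) := pow_le_pow_right₀ (by norm_num) (by omega)
      linarith
    have e6 : 0 < ε := by positivity
    have e7 : ε ≤ 1 := by
      have : ε = (1 / 2 / 4 ^ k) / 4 := by rw [e3]; ring
      linarith
    have e8 : (1 - ε) * (A - 1) ≤ (1 - ε) * a (k + 1) :=
      mul_le_mul_of_nonneg_left h8 (by linarith)
    have e9 : (4 - 2 * (1 / 2 / 4 ^ k)) * (4 : ℝ) ^ (m + 2 + k) = (1 - 2 * ε) * A := by
      rw [e3, e4]; ring
    nlinarith

end chain

/-- for every auxiliary function all of whose coefficients are negative, all the vertices `Ys` are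
shadow vertices -/
theorem gadget_shadow {m : ℕ} {σ : ℕ → ℝ} (hσ : Sgn σ) {w : Fin (m + 1) → ℝ} (hw : ∀ j, w j < 0) :
    ∃ μ : ℝ, OnlyMax (Gd m) (w + μ • cc m) (pX m (Ys m σ)) := by
  set ρ : ℝ := ∑ j, -w j with hρ
  have hρ0 : 0 < ρ := sum_pos (fun j _ => neg_pos.2 (hw j)) ⟨0, mem_univ 0⟩
  set p : ℕ → ℝ := fun j => if h : j < m + 1 then -w ⟨j, h⟩ / ρ else 0 with hp
  have hpF : ∀ j : Fin (m + 1), p j = -w j / ρ := fun j => by
    rw [hp]; dsimp only; rw [dif_pos j.2]
  have hp0 : ∀ j ≤ m, 0 < p j := fun j hj => by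
    have := hpF ⟨j, by omega⟩
    dsimp only at this
    rw [this]
    exact div_pos (neg_pos.2 (hw _)) hρ0
  have hp1 : ∑ j : Fin (m + 1), p j = 1 := by
    rw [sum_congr rfl fun j _ => hpF j, ← sum_div, ← hρ, div_self hρ0.ne']
  have hple : ∀ j ≤ m, p j ≤ 1 := fun j hj => by
    rw [← hp1]
    exact single_le_sum (f := fun j : Fin (m + 1) => p j) (fun i _ => (hp0 i (by omega)).le)
      (mem_univ (⟨j, by omega⟩ : Fin (m + 1)))
  set a : ℕ → ℝ := fun j => al m j - p j with ha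
  have ha0 : 0 < a 0 := by
    have h1 := hple 0 (Nat.zero_le m)
    have h2 : 1 < (al m 0 : ℝ) := by
      rcases Nat.eq_zero_or_pos m with h | h
      · subst h; rw [al_last]; norm_num
      · rw [al_lt h]; exact one_lt_pow₀ (by norm_num) (by omega)
    show 0 < (al m 0 : ℝ) - p 0
    linarith
  have hak : ∀ k < m, 4 ^ (m + 2 + k) - 1 ≤ a k ∧ a k ≤ 4 ^ (m + 2 + k) := by
    intro k hk
    have h1 := hple k hk.le
    have h2 := hp0 k hk.le
    have h3 : a k = 4 ^ (m + 2 + k) - p k := by rw [ha]; dsimp only; rw [al_lt hk]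
    rw [h3]
    constructor <;> linarith
  have hg := fun k hk => (gg_pos (m := m) hσ ha0 hak k hk).1
  set M : ℝ := 16 ^ (m + 1) with hM
  have hM0 : 0 < M := by positivity
  set μ : ℝ := ρ / (M * 2 ^ m) * (gg a σ m + a m) with hμ
  have key : ∀ x : Fin (m + 1) → ℝ, (w + μ • cc m) ⬝ᵥ x =
      ρ / M * (gg a σ m * Z m x (m + 1) - ∑ j ∈ range m, a j * Z m x (j + 1)) := by
    intro x
    have e1 : w ⬝ᵥ x = -(ρ / M) * ∑ j : Fin (m + 1), a j * Z m x (j + 1) := by
      have e2 : ∀ j : Fin (m + 1), w j * x j =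
          -(ρ / M) * (p j * ∑ i : Fin (m + 1), (al m i : ℝ) * Z m x (i + 1)) +
            ρ / M * (p j * Z m x (j + 1)) := by
        intro j
        have e3 : w j = -(ρ * p j) := by rw [hpF]; field_simp
        rw [e3, x_eq m x j]
        field_simp
        ring
      rw [dotProduct, sum_congr rfl fun j _ => e2 j, sum_add_distrib, ← mul_sum, ← mul_sum,
        ← sum_mul, hp1, one_mul]
      simp only [ha, sub_mul, sum_sub_distrib]
      ring
    have e4 : ∑ j : Fin (m + 1), a j * Z m x (j + 1) =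
        ∑ j ∈ range m, a j * Z m x (j + 1) + a m * Z m x (m + 1) := by
      rw [Fin.sum_univ_eq_sum_range (fun j => a j * Z m x (j + 1)) (m + 1), sum_range_succ]
    rw [add_dotProduct, smul_dotProduct, smul_eq_mul, cc_dot, e1, e4, hμ]
    have : (2 : ℝ) ^ m ≠ 0 := by positivity
    field_simp
    ring
  refine ⟨μ, Ys_mem hσ, fun x hx hne => ?_⟩
  rw [key, key]
  exact mul_lt_mul_of_pos_left (final_le hσ (fun k => rfl) hg hx hne) (by positivity)

theorem abs_zc {m i : ℕ} (hi : i ≤ m + 1) (j : Fin (m + 1)) : |(zc m i j : ℝ)| ≤ 3 * 16 ^ (m + 1) := by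
  rcases i with _ | i
  · simp [zc]
  · have h1 := al_pos (m := m) (j := j) (by omega)
    have h2 := al_le (m := m) (j := j) (by omega)
    have h3 := sixteen m
    rw [zc]
    split_ifs with h
    · push_cast
      rw [abs_le]
      constructor <;> linarith
    · push_cast
      rw [abs_le]
      constructor <;> linarith

/-- if `0` is the only maximiser of a functional then its coefficients are negative -/
theorem neg_of_only {m : ℕ} {u : Fin (m + 1) → ℝ} (h : OnlyMax (Gd m) u 0) (j : Fin (m + 1)) :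
    u j < 0 := by
  set ε : ℝ := 1 / (9 * 16 ^ (m + 1)) with hε
  have hε0 : 0 < ε := by positivity
  have hZ : ∀ i, Z m (Pi.single j ε) i = zc m i j * ε := by
    intro i
    rw [Z, sum_eq_single j]
    · simp
    · intro b _ hb
      simp [hb]
    · intro hb
      exact absurd (mem_univ j) hb
  have hb : ∀ i ≤ m + 1, |(zc m i j : ℝ) * ε| ≤ 1 / 3 := by
    intro i hi
    rw [abs_mul, abs_of_pos hε0]
    have := mul_le_mul_of_nonneg_right (abs_zc hi j) hε0.le
    refine this.trans (le_of_eq ?_)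
    rw [hε]
    field_simp
    norm_num
  have hmem : Pi.single j ε ∈ Gd m := by
    refine ⟨fun i => ?_, fun i hi => ?_, fun i hi => ?_⟩
    · by_cases e : i = j
      · subst e; simp [hε0.le]
      · simp [e]
    · rw [hZ, hZ]
      have h1 := abs_le.1 (hb (i + 1) (by omega))
      have h2 := abs_le.1 (hb i (by omega))
      have : (2 : ℝ) ≤ bb m i := by
        rw [bb]; split_ifs <;> norm_num
      linarith [h1.2, h2.1]
    · rw [hZ, hZ]
      have h1 := abs_le.1 (hb (i + 1) (by omega))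
      have h2 := abs_le.1 (hb i (by omega))
      linarith [h1.1, h2.1]
  have := h.2 _ hmem (fun e => by
    have := congrFun e j
    simp at this
    exact hε0.ne' this)
  rw [dotProduct_zero, dotProduct_single] at this
  by_contra hc
  push Not at hc
  linarith [mul_nonneg hc hε0.le]

/-- a sign vector -/
def sg {m : ℕ} (s : Fin m → Bool) (i : ℕ) : ℝ := if h : i < m then (if s ⟨i, h⟩ then 1 else -1) else 1

theorem sg_sgn {m : ℕ} (s : Fin m → Bool) : Sgn (sg s) := by
  intro i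
  rw [sg]
  split_ifs <;> simp

theorem Ys_inj {m : ℕ} {s s' : Fin m → Bool}
    (h : pX m (Ys m (sg s)) = pX m (Ys m (sg s'))) : s = s' := by
  have hY : ∀ (s : Fin m → Bool), ∀ i ≤ m, Z m (pX m (Ys m (sg s))) i = Ys m (sg s) i := by
    intro s i hi
    rcases i with _ | i
    · rw [Z_zero, Ys]
    · exact Z_pX m _ i (by omega)
  have h1 : ∀ i ≤ m, Ys m (sg s) i = Ys m (sg s') i := by
    intro i hi
    rw [← hY s i hi, ← hY s' i hi, h]
  ext i
  have h2 := h1 i (by omega)
  have h3 := h1 (i + 1) (by omega)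
  have h4 := Ys_bound (m := m) (sg_sgn s') i (by omega)
  rw [Ys, Ys, if_pos i.2, if_pos i.2, h2] at h3
  have h5 : sg s i = sg s' i := by
    have : 1 + Ys m (sg s') i / 2 ≠ 0 := by linarith [h4.2]
    exact mul_right_cancel₀ this h3
  simp only [sg, i.2, dif_pos, Fin.eta] at h5
  revert h5
  cases s i <;> cases s' i <;> norm_num

theorem slowThin (m : ℕ) {t : Fin (m + 1) → ℝ} (ht : ∀ x ∈ Gd m, cc m ⬝ᵥ x ≤ cc m ⬝ᵥ t) :
    SlowThin (Gd m) (cc m) t (2 ^ m) := by
  intro N x w h0 hN hstep hthin hsh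
  have hval : ∀ s : Fin m → Bool, 0 < cc m ⬝ᵥ pX m (Ys m (sg s)) := by
    intro s
    rw [cc_dot, Z_pX m _ m le_rfl, Ys, if_neg (by omega)]
    have := Ys_bound (m := m) (sg_sgn s) m le_rfl
    have h2 : 0 < 3 + Ys m (sg s) m / 2 := by linarith [this.2]
    positivity
  have hNpos : 0 < N := by
    rcases Nat.eq_zero_or_pos N with e | e
    · exfalso
      subst e
      have h1 := ht _ (Ys_mem (m := m) (sg_sgn (fun _ : Fin m => true)))
      rw [← hN, h0, dotProduct_zero] at h1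
      exact absurd h1 (not_le.2 (hval _))
    · exact e
  have hkey : ∀ s : Fin m → Bool, ∃ i, i < N ∧ x (i + 1) = pX m (Ys m (sg s)) := by
    intro s
    set y := pX m (Ys m (sg s)) with hy
    obtain ⟨i, hi, h1, h2⟩ := exists_cross (N := N) (fun i => cc m ⬝ᵥ x i) (cc m ⬝ᵥ y)
      (by rw [h0, dotProduct_zero]; exact (hval s).le)
      (by rw [hN]; exact ht _ (Ys_mem (sg_sgn s))) hNpos
    obtain ⟨μ, hμ⟩ := hthin i hi
    obtain ⟨ν, hν1, hν2⟩ := hsh i hi
    obtain ⟨μ', hμ'⟩ := gadget_shadow (m := m) (sg_sgn s) (fun j => neg_of_only hμ j)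
    rw [add_assoc, ← add_smul] at hμ'
    rcases no_jump hν1 hν2 h1 h2 hμ' with e | e
    · rcases Nat.eq_zero_or_pos i with hi0 | hi0
      · exfalso
        rw [hi0, h0] at e
        have := hval s
        rw [← hy, e, dotProduct_zero] at this
        exact lt_irrefl _ this
      · exact ⟨i - 1, by omega, by rw [Nat.sub_add_cancel hi0]; exact e.symm⟩
    · exact ⟨i, hi, e.symm⟩
  choose f hf1 hf2 using hkey
  have hinj : Function.Injective (fun s => (⟨f s, hf1 s⟩ : Fin N)) := by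
    intro s s' h
    have : f s = f s' := congrArg Fin.val h
    exact Ys_inj (by rw [← hf2, ← hf2, this])
  have := Fintype.card_le_of_injective _ hinj
  simpa using this

end Pool.Agent.Helper27.Sh
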