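import Pool.Agent.Helper27.Sh.Gadget2
set_option autoImplicit false
set_option linter.unusedSectionVars false
set_option linter.unusedVariables false
set_option linter.unusedSimpArgs false

/-!
The gadget has the properties `Good`: the value of every vertex except the top is smaller by at least `1`.
-/

namespace Pool.Agent.Helper27.Sh

open Finset

theorem exists_small {R : Type} [Finite R] (s d : R → ℝ) (hs : ∀ r, 0 ≤ s r)
    (hd : ∀ r, s r = 0 → d r = 0) : ∃ ε : ℝ, 0 < ε ∧ ∀ r, ε * |d r| ≤ s r := by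
  have h : ∀ᶠ ε in nhdsWithin (0 : ℝ) (Set.Ioi 0), ∀ r, ε * |d r| ≤ s r := by
    rw [Filter.eventually_all]
    intro r
    rcases (hs r).lt_or_eq with h | h
    · have h1 : Filter.Tendsto (fun ε : ℝ => ε * |d r|) (nhds 0) (nhds (0 * |d r|)) :=
        Filter.Tendsto.mul_const _ Filter.tendsto_id
      rw [zero_mul] at h1
      have h2 : ∀ᶠ ε in nhds (0 : ℝ), ε * |d r| < s r := h1.eventually_lt_const h
      exact (h2.filter_mono nhdsWithin_le_nhds).mono fun ε hε => hε.le
    · refine Filter.Eventually.of_forall fun ε => ?_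
      rw [hd r h.symm, ← h]
      simp
  obtain ⟨ε, h1, h2⟩ := (h.and self_mem_nhdsWithin).exists
  exact ⟨ε, h2, h1⟩

theorem Z_add (m : ℕ) (x y : Fin (m + 1) → ℝ) (r : ℝ) (i : ℕ) :
    Z m (x + r • y) i = Z m x i + r * Z m y i := by
  simp only [Z, Pi.add_apply, Pi.smul_apply, smul_eq_mul, mul_add, sum_add_distrib, mul_sum]
  congr 1
  exact sum_congr rfl fun j _ => by ring

/-- the top -/
noncomputable def tp (m : ℕ) : Fin (m + 1) → ℝ := pX m (Ys m fun _ => 1)

theorem one_sgn : Sgn fun _ => (1 : ℝ) := fun _ => Or.inl rfl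

theorem Ys_one (m : ℕ) : ∀ i ≤ m, Ys m (fun _ => 1) i = 2 - 2 / 2 ^ i := by
  intro i
  induction i with
  | zero => intro _; rw [Ys]; norm_num
  | succ i ih =>
    intro hi
    rw [Ys, if_pos (by omega), ih (by omega), pow_succ]
    field_simp
    ring

theorem Z_tp (m : ℕ) : ∀ i ≤ m, Z m (tp m) i = 2 - 2 / 2 ^ i := by
  intro i hi
  rw [← Ys_one m i hi]
  rcases i with _ | i
  · rw [Z_zero, Ys]
  · exact Z_pX m _ i (by omega)

theorem Z_tp_last (m : ℕ) : Z m (tp m) (m + 1) = 4 - 1 / 2 ^ m := by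
  rw [tp, Z_pX m _ m le_rfl, Ys, if_neg (by omega), Ys_one m m le_rfl]
  ring

theorem cc_tp (m : ℕ) : cc m ⬝ᵥ tp m = 2 ^ (m + 2) - 1 := by
  rw [cc_dot, Z_tp_last, pow_succ, pow_succ]
  field_simp
  ring

theorem all_eq {m : ℕ} {x : Fin (m + 1) → ℝ} (hx : x ∈ Gd m) :
    ∀ i ≤ m, Z m x i = 2 - 2 / 2 ^ i → ∀ j ≤ i, Z m x j = 2 - 2 / 2 ^ j := by
  intro i
  induction i with
  | zero =>
    intro _ h j hj
    rw [Nat.le_zero.1 hj]
    exact h
  | succ i ih =>
    intro hi h j hj
    have h1 := (Z_bound hx i (by omega)).1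
    have h2 := hx.2.1 i (by omega)
    rw [bb, if_pos (by omega)] at h2
    push_cast at h2
    have h5 : (2 : ℝ) / 2 ^ (i + 1) = (2 / 2 ^ i) / 2 := by rw [pow_succ]; field_simp
    rcases hj.lt_or_eq with h' | h'
    · refine ih (by omega) ?_ j (by omega)
      rw [h5] at h
      linarith
    · subst h'; exact h

theorem eq_tp {m : ℕ} {x : Fin (m + 1) → ℝ} (hx : x ∈ Gd m) (h : Z m x m = 2 - 2 / 2 ^ m)
    (h' : Z m x (m + 1) = 3 + Z m x m / 2) : x = tp m := by
  refine Z_ext fun i hi => ?_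
  rcases hi.lt_or_eq with h1 | h1
  · rw [Z_tp m (i + 1) (by omega), all_eq hx m le_rfl h (i + 1) (by omega)]
  · subst h1
    rw [h', h, Z_tp_last]
    ring

theorem good_uniq {m : ℕ} {x : Fin (m + 1) → ℝ} (hx : x ∈ Gd m) (hne : x ≠ tp m) :
    cc m ⬝ᵥ x < 2 ^ (m + 2) - 1 := by
  by_contra hc
  push Not at hc
  apply hne
  have h1 := (Z_bound hx m le_rfl).1
  have h2 := hx.2.1 m le_rfl
  rw [bb, if_neg (by omega)] at h2
  push_cast at h2
  rw [← cc_tp, cc_dot, cc_dot] at hc
  have h3 := le_of_mul_le_mul_left hc (by positivity)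
  rw [Z_tp_last] at h3
  have : (2 : ℝ) / 2 ^ m = 2 * (1 / 2 ^ m) := by ring
  exact eq_tp hx (by linarith) (by linarith)

theorem facet_low {m : ℕ} {x : Fin (m + 1) → ℝ} (hx : x ∈ Gd m) {i : Fin (m + 1)} (hi : x i = 0) :
    Z m x (m + 1) ≤ 2 := by
  have h1 := x_eq m x i
  rw [hi] at h1
  have h2 : ∑ j : Fin (m + 1), (al m j : ℝ) * Z m x (j + 1) = Z m x (i + 1) := by
    have : (16 : ℝ) ^ (m + 1) ≠ 0 := by positivity
    rw [eq_comm, div_eq_zero_iff] at h1
    rcases h1 with h | h
    · linarith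
    · exact absurd h this
  rw [Fin.sum_univ_eq_sum_range (fun j => (al m j : ℝ) * Z m x (j + 1)) (m + 1),
    sum_range_succ, al_last] at h2
  have h4 : -(2 * ∑ i ∈ range m, (4 : ℝ) ^ (m + 2 + i)) ≤
      ∑ j ∈ range m, (al m j : ℝ) * Z m x (j + 1) := by
    rw [mul_sum, ← sum_neg_distrib]
    refine sum_le_sum fun j hj => ?_
    rw [al_lt (mem_range.1 hj)]
    have h5 := (Z_lt hx (i := j + 1) (by have := mem_range.1 hj; omega)).1
    have h6 : (0 : ℝ) < 4 ^ (m + 2 + j) := by positivity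
    nlinarith
  have h5 : Z m x (i + 1) ≤ 4 := by
    rcases Nat.lt_or_ge (i : ℕ) m with h | h
    · linarith [(Z_lt hx (i := i + 1) (by omega)).2]
    · have : (i : ℕ) = m := by omega
      rw [this]
      have := (Z_last hx).1
      have h6 : (0 : ℝ) < 1 / 2 ^ m := by positivity
      linarith
  have h6 := geo m
  have h7 := sixteen m
  have h8 : (4 : ℝ) ^ 2 ≤ 4 ^ (m + 2) := pow_le_pow_right₀ (by norm_num) (by omega)
  set S := ∑ i ∈ range m, (4 : ℝ) ^ (m + 2 + i)
  by_contra hc
  push Not at hc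
  have h10 : 0 < 16 ^ (m + 1) + 1 - S := by linarith
  have h11 : (16 ^ (m + 1) + 1 - S) * 2 < (16 ^ (m + 1) + 1 - S) * Z m x (m + 1) :=
    mul_lt_mul_of_pos_left hc h10
  linarith

theorem good_gap {m : ℕ} {x : Fin (m + 1) → ℝ} (hx : x ∈ (Gd m).extremePoints ℝ) (hne : x ≠ tp m) :
    cc m ⬝ᵥ x ≤ (2 ^ (m + 2) - 1) - 1 := by
  have h1m : (1 : ℝ) ≤ 2 ^ m := one_le_pow₀ (by norm_num)
  have hT : (2 : ℝ) ^ (m + 2) = 4 * 2 ^ m := by rw [pow_succ, pow_succ]; ring
  rw [cc_dot, hT]
  by_cases hi : ∃ i, x i = 0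
  · obtain ⟨i, hi⟩ := hi
    have := facet_low hx.1 hi
    have h2 : (2 : ℝ) ^ m * Z m x (m + 1) ≤ 2 ^ m * 2 := mul_le_mul_of_nonneg_left this (by positivity)
    linarith
  push Not at hi
  by_cases hk : ∃ k, k ≤ m ∧ 2 * Z m x (k + 1) - Z m x k ≠ bb m k ∧ -2 * Z m x (k + 1) - Z m x k ≠ 2
  · -- not extreme
    exfalso
    classical
    obtain ⟨k, hk, hmax⟩ : ∃ k, (k ≤ m ∧ 2 * Z m x (k + 1) - Z m x k ≠ bb m k ∧
        -2 * Z m x (k + 1) - Z m x k ≠ 2) ∧ ∀ j ≤ m, k < j → (2 * Z m x (j + 1) - Z m x j = bb m j ∨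
          -2 * Z m x (j + 1) - Z m x j = 2) := by
      obtain ⟨k0, hk0⟩ := hk
      set S := (range (m + 1)).filter fun k => 2 * Z m x (k + 1) - Z m x k ≠ bb m k ∧
        -2 * Z m x (k + 1) - Z m x k ≠ 2 with hS
      have hne : S.Nonempty := ⟨k0, mem_filter.2 ⟨mem_range.2 (by omega), hk0.2⟩⟩
      refine ⟨S.max' hne, ?_, fun j hj hjk => ?_⟩
      · have := mem_filter.1 (S.max'_mem hne)
        exact ⟨by have := mem_range.1 this.1; omega, this.2⟩
      · by_contra hc
        push Not at hc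
        have := S.le_max' j (mem_filter.2 ⟨mem_range.2 (by omega), hc⟩)
        omega
    set sj : ℕ → ℝ := fun j => if 2 * Z m x (j + 1) - Z m x j = bb m j then 1 else -1 with hsj
    -- the direction
    set D : ℕ → ℝ := fun j => if j ≤ k then 0 else ∏ i ∈ Ico (k + 1) j, (sj i / 2) with hD
    have hD0 : ∀ j ≤ k, D j = 0 := fun j hj => by rw [hD]; dsimp only; rw [if_pos hj]
    have hD1 : D (k + 1) = 1 := by rw [hD]; dsimp only; rw [if_neg (by omega)]; simp
    have hD2 : ∀ j, k < j → D (j + 1) = sj j / 2 * D j := by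
      intro j hj
      rw [hD]
      dsimp only
      rw [if_neg (by omega), if_neg (by omega), prod_Ico_succ_top (by omega)]
      ring
    have hZD : ∀ j ≤ m + 1, Z m (pX m D) j = D j := by
      intro j hj
      rcases j with _ | j
      · rw [Z_zero, hD0 0 (Nat.zero_le _)]
      · exact Z_pX m D j (by omega)
    obtain ⟨ε, hε, hsm⟩ := exists_small (R := Fin (m + 1) ⊕ Fin (m + 1) ⊕ Fin (m + 1))
      (Sum.elim (fun i => x i) (Sum.elim (fun i => (bb m i : ℝ) - (2 * Z m x (i + 1) - Z m x i))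
        (fun i => 2 - (-2 * Z m x (i + 1) - Z m x i))))
      (Sum.elim (fun i => pX m D i) (Sum.elim (fun i => 2 * D (i + 1) - D i)
        (fun i => -2 * D (i + 1) - D i)))
      (by
        rintro (i | i | i)
        · exact hx.1.1 i
        · exact sub_nonneg.2 (hx.1.2.1 i (by omega))
        · exact sub_nonneg.2 (hx.1.2.2 i (by omega)))
      (by
        rintro (i | i | i) hi0
        · exact absurd hi0 (hi i)
        · simp only [Sum.elim_inr, Sum.elim_inl] at hi0 ⊢
          rcases lt_trichotomy (i : ℕ) k with h | h | h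
          · rw [hD0 _ h.le, hD0 (i + 1) (by omega)]; ring
          · rw [h] at hi0
            exact absurd (by linarith) hk.2.1
          · rw [hD2 _ h, hsj]
            dsimp only
            rw [if_pos (by linarith)]
            ring
        · simp only [Sum.elim_inr, Sum.elim_inl] at hi0 ⊢
          rcases lt_trichotomy (i : ℕ) k with h | h | h
          · rw [hD0 _ h.le, hD0 (i + 1) (by omega)]; ring
          · rw [h] at hi0
            exact absurd (by linarith) hk.2.2
          · rw [hD2 _ h, hsj]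
            dsimp only
            have h2 := (Z_lt hx.1 (i := i) (by omega)).1
            have h3 : (2 : ℝ) ≤ bb m i := by rw [bb]; split_ifs <;> norm_num
            rw [if_neg (by intro h4; linarith)]
            ring)
    have hmem : ∀ r : ℝ, |r| = ε → x + r • pX m D ∈ Gd m := by
      intro r hr
      have hb : ∀ y : ℝ, r * y ≤ ε * |y| ∧ -(ε * |y|) ≤ r * y := by
        intro y
        rw [← hr, ← abs_mul]
        exact ⟨le_abs_self _, neg_abs_le _⟩
      refine ⟨fun i => ?_, fun i hi' => ?_, fun i hi' => ?_⟩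
      · have h2 := hsm (Sum.inl i)
        have h3 := (hb (pX m D i)).2
        simp only [Sum.elim_inl] at h2
        simp only [Pi.add_apply, Pi.smul_apply, smul_eq_mul]
        linarith
      · have h2 := hsm (Sum.inr (Sum.inl ⟨i, by omega⟩))
        have h3 := (hb (2 * D (i + 1) - D i)).1
        simp only [Sum.elim_inl, Sum.elim_inr] at h2
        rw [Z_add, Z_add, hZD _ (by omega), hZD _ (by omega)]
        linarith
      · have h2 := hsm (Sum.inr (Sum.inr ⟨i, by omega⟩))
        have h3 := (hb (-2 * D (i + 1) - D i)).1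
        simp only [Sum.elim_inl, Sum.elim_inr] at h2
        rw [Z_add, Z_add, hZD _ (by omega), hZD _ (by omega)]
        linarith
    have h1 := hmem ε (abs_of_pos hε)
    have h2 := hmem (-ε) (by rw [abs_neg, abs_of_pos hε])
    have h3 := (mem_extremePoints.1 hx).2 _ h1 _ h2 ⟨1 / 2, 1 / 2, by norm_num, by norm_num,
      by norm_num, by
        ext j
        simp only [Pi.add_apply, Pi.smul_apply, smul_eq_mul]
        ring⟩
    have h4 : Z m (x + ε • pX m D) (k + 1) = Z m x (k + 1) := by rw [h3.1]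
    rw [Z_add, hZD _ (by omega), hD1] at h4
    linarith
  · push Not at hk
    have hx1 := hx.1
    have hstep : ∀ i ≤ m, Z m x i = 2 - 2 / 2 ^ i ∨ Z m x i ≤ (2 - 2 / 2 ^ i) - 2 / 2 ^ i := by
      intro i
      induction i with
      | zero => intro _; left; rw [Z_zero]; norm_num
      | succ i ih =>
        intro hi'
        have h5 : (2 : ℝ) / 2 ^ (i + 1) = (2 / 2 ^ i) / 2 := by rw [pow_succ]; field_simp
        have h6 := hk i (by omega)
        rw [bb, if_pos (by omega)] at h6
        push_cast at h6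
        by_cases h7 : 2 * Z m x (i + 1) - Z m x i = 2
        · rcases ih (by omega) with h8 | h8
          · left; rw [h5]; linarith
          · right; rw [h5]; linarith
        · have h9 := h6 h7
          have h10 := (Z_lt hx1 (i := i) (by omega)).1
          right
          have h11 : (2 : ℝ) / 2 ^ (i + 1) ≤ 1 := by
            rw [div_le_one (by positivity)]
            calc (2 : ℝ) = 2 ^ 1 := by norm_num
              _ ≤ 2 ^ (i + 1) := pow_le_pow_right₀ (by norm_num) (by omega)
          linarith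
    have h6 := hk m le_rfl
    rw [bb, if_neg (by omega)] at h6
    push_cast at h6
    have h8 : (2 : ℝ) / 2 ^ m = 2 * (1 / 2 ^ m) := by ring
    have h9 : (2 : ℝ) ^ m * (1 / 2 ^ m) = 1 := by field_simp
    by_cases h7 : 2 * Z m x (m + 1) - Z m x m = 6
    · rcases hstep m le_rfl with h | h
      · exact absurd (eq_tp hx1 h (by linarith)) hne
      · have h10 : Z m x (m + 1) ≤ 4 - 2 * (1 / 2 ^ m) := by linarith
        have h11 := mul_le_mul_of_nonneg_left h10 (by positivity : (0 : ℝ) ≤ 2 ^ m)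
        have h12 : (2 : ℝ) ^ m * (4 - 2 * (1 / 2 ^ m)) = 4 * 2 ^ m - 2 := by
          rw [mul_sub]
          linear_combination -2 * h9
        linarith
    · have h10 := h6 h7
      have h11 := (Z_lt hx1 (le_refl m)).1
      have h12 : Z m x (m + 1) ≤ 0 := by linarith
      have h13 := mul_nonpos_of_nonneg_of_nonpos (by positivity : (0 : ℝ) ≤ 2 ^ m) h12
      linarith

theorem Z_comb (m : ℕ) (x y : Fin (m + 1) → ℝ) (a b : ℝ) (i : ℕ) :
    Z m (a • x + b • y) i = a * Z m x i + b * Z m y i := by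
  simp only [Z, Pi.add_apply, Pi.smul_apply, smul_eq_mul, mul_add, sum_add_distrib, mul_sum]
  congr 1 <;> exact sum_congr rfl fun j _ => by ring

theorem good_gadget (m : ℕ) : Good (Gd m) (cc m) (tp m) (2 ^ (m + 2) - 1) where
  conv := by
    intro x hx y hy a b ha hb hab
    refine ⟨fun j => ?_, fun i hi => ?_, fun i hi => ?_⟩
    · simp only [Pi.add_apply, Pi.smul_apply, smul_eq_mul]
      exact add_nonneg (mul_nonneg ha (hx.1 j)) (mul_nonneg hb (hy.1 j))
    · rw [Z_comb, Z_comb]
      have h1 := mul_le_mul_of_nonneg_left (hx.2.1 i hi) ha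
      have h2 := mul_le_mul_of_nonneg_left (hy.2.1 i hi) hb
      have h3 : a * (bb m i : ℝ) + b * (bb m i : ℝ) = bb m i := by rw [← add_mul, hab, one_mul]
      linarith
    · rw [Z_comb, Z_comb]
      have h1 := mul_le_mul_of_nonneg_left (hx.2.2 i hi) ha
      have h2 := mul_le_mul_of_nonneg_left (hy.2.2 i hi) hb
      have h3 : a * (2 : ℝ) + b * (2 : ℝ) = 2 := by rw [← add_mul, hab, one_mul]
      linarith
  zero := by
    have h : ∀ i, Z m 0 i = 0 := fun i => by simp [Z]
    refine ⟨fun j => le_rfl, fun i hi => ?_, fun i hi => ?_⟩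
    · rw [h, h]
      have : (2 : ℝ) ≤ bb m i := by rw [bb]; split_ifs <;> norm_num
      linarith
    · rw [h, h]; norm_num
  nonneg := fun x hx => hx.1
  top := Ys_mem one_sgn
  val := cc_tp m
  pos := by
    have : (2 : ℝ) ^ 1 ≤ 2 ^ (m + 2) := pow_le_pow_right₀ (by norm_num) (by omega)
    linarith
  uniq := fun x hx hne => good_uniq hx hne
  gap := fun x hx hne => good_gap hx hne
  bdd := by
    refine ⟨(4 * (16 ^ (m + 1) + 1) + 2) / 16 ^ (m + 1), fun x hx i => ?_⟩
    rw [x_eq m x i]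
    refine div_le_div_of_nonneg_right ?_ (by positivity)
    have h1 : ∀ j ≤ m, -2 < Z m x (j + 1) ∧ Z m x (j + 1) ≤ 4 := by
      intro j hj
      rcases hj.lt_or_eq with h | h
      · have := Z_lt hx (i := j + 1) (by omega)
        constructor <;> linarith
      · subst h
        have := Z_last hx
        have h6 : (0 : ℝ) < 1 / 2 ^ j := by positivity
        constructor <;> linarith
    have h2 : ∑ j : Fin (m + 1), (al m j : ℝ) * Z m x (j + 1) ≤ 4 * (16 ^ (m + 1) + 1) := by
      rw [← sum_al, ← Fin.sum_univ_eq_sum_range (fun j => (al m j : ℝ)) (m + 1), mul_sum]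
      refine sum_le_sum fun j _ => ?_
      have := al_pos (m := m) (j := j) (by omega)
      have h3 := (h1 j (by omega)).2
      nlinarith
    linarith [(h1 i (by omega)).1]

theorem cc_le (m : ℕ) : ∀ y ∈ Gd m, cc m ⬝ᵥ y ≤ 32 ^ (m + 1) * ∑ j, y j := by
  intro y hy
  rw [dotProduct, mul_sum]
  refine sum_le_sum fun j _ => mul_le_mul_of_nonneg_right ?_ (hy.1 j)
  have h1 : (zc m (m + 1) j : ℝ) ≤ 16 ^ (m + 1) + 1 := by
    have h2 := al_le (m := m) (j := j) (by omega)
    have h3 := sixteen m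
    rw [zc]
    split_ifs with h
    · push_cast; linarith
    · push_cast; linarith
  have h3 := sixteen m
  have h4 : (2 : ℝ) ^ m * (zc m (m + 1) j : ℝ) ≤ 2 ^ m * (16 ^ (m + 1) + 1) :=
    mul_le_mul_of_nonneg_left h1 (by positivity)
  have h5 : (32 : ℝ) ^ (m + 1) = 2 ^ m * (2 * 16 ^ (m + 1)) := by
    rw [show (32 : ℝ) = 2 * 16 by norm_num, mul_pow, pow_succ]
    ring
  rw [cc, h5]
  exact h4.trans (mul_le_mul_of_nonneg_left (by linarith) (by positivity))

theorem slow_gadget (m : ℕ) : SlowThin (Gd m) (cc m) (tp m) (2 ^ m) :=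
  slowThin m fun x hx => by rw [cc_tp]; exact (good_gadget m).le x hx

end Pool.Agent.Helper27.Sh
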