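import Pool.Agent.Helper27.Sh.Basic
set_option autoImplicit false
set_option linter.unusedSectionVars false
set_option linter.unusedVariables false
set_option linter.unusedSimpArgs false

/-!
Serial composition of two linear programs: `P` is blown up by the factor `1 + K ∑ y` over the points
`y` of `G`, and the objective function is such that increasing paths from the origin first go through
`P` to its top `t` and then through `G`.
-/

namespace Pool.Agent.Helper27.Sh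

open Finset

variable {ι κ : Type} [Fintype ι] [Fintype κ]

theorem edge_split {P : Set (ι → ℝ)} {x x' a b : ι → ℝ} (h : Edge P x x') (hab : x' - x = a + b)
    (ha : ∃ ε : ℝ, 0 < ε ∧ x + ε • a ∈ P) (hb : ∃ ε : ℝ, 0 < ε ∧ x + ε • b ∈ P) :
    ∃ τ : ℝ, 0 ≤ τ ∧ a = τ • (x' - x) := by
  obtain ⟨u, hu⟩ := h
  obtain ⟨ε, hε, ha⟩ := ha
  obtain ⟨δ, hδ, hb⟩ := hb
  have hx := (hu x).1 (left_mem_segment ℝ x x')
  have hx' := (hu x').1 (right_mem_segment ℝ x x')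
  have e1 : u ⬝ᵥ x' = u ⬝ᵥ x := le_antisymm (hx.2 _ hx'.1) (hx'.2 _ hx.1)
  have e2 : u ⬝ᵥ a + u ⬝ᵥ b = 0 := by
    rw [← dotProduct_add, ← hab, dotProduct_sub, e1, sub_self]
  have e3 := hx.2 _ ha
  have e4 := hx.2 _ hb
  rw [dotProduct_add, dotProduct_smul, smul_eq_mul] at e3 e4
  have e5 : u ⬝ᵥ a ≤ 0 := by
    by_contra hc
    push Not at hc
    nlinarith [mul_pos hε hc]
  have e6 : u ⬝ᵥ b ≤ 0 := by
    by_contra hc
    push Not at hc
    nlinarith [mul_pos hδ hc]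
  have e7 : u ⬝ᵥ a = 0 := by linarith
  have hm : x + ε • a ∈ segment ℝ x x' := by
    rw [hu]
    refine ⟨ha, fun y hy => ?_⟩
    rw [dotProduct_add, dotProduct_smul, e7, smul_zero, add_zero]
    exact hx.2 y hy
  rw [segment_eq_image'] at hm
  obtain ⟨θ, hθ, e⟩ := hm
  dsimp only at e
  refine ⟨θ / ε, div_nonneg hθ.1 hε.le, ?_⟩
  have e8 : θ • (x' - x) = ε • a := add_left_cancel e
  rw [div_eq_inv_mul, mul_smul, e8, smul_smul, inv_mul_cancel₀ hε.ne', one_smul]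

/-- the point of the composition over `y` whose fibre part is `(1 + K ∑ y) p` -/
def pt (K : ℝ) (p : ι → ℝ) (y : κ → ℝ) : ι ⊕ κ → ℝ := Sum.elim ((1 + K * ∑ j, y j) • p) y

/-- the serial composition -/
def ser (K : ℝ) (P : Set (ι → ℝ)) (G : Set (κ → ℝ)) : Set (ι ⊕ κ → ℝ) :=
  {z | ∃ p ∈ P, ∃ y ∈ G, z = pt K p y}

/-- the objective function of the serial composition -/
def serc (K T : ℝ) (c : ι → ℝ) (d : κ → ℝ) : ι ⊕ κ → ℝ := Sum.elim c fun j => d j - K * T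

theorem dot_sum (U : ι ⊕ κ → ℝ) (x : ι → ℝ) (y : κ → ℝ) :
    U ⬝ᵥ (Sum.elim x y) = (U ∘ Sum.inl) ⬝ᵥ x + (U ∘ Sum.inr) ⬝ᵥ y := by
  simp [dotProduct, Fintype.sum_sum_type]

theorem dot_pt (K : ℝ) (U : ι ⊕ κ → ℝ) (p : ι → ℝ) (y : κ → ℝ) :
    U ⬝ᵥ pt K p y = (1 + K * ∑ j, y j) * ((U ∘ Sum.inl) ⬝ᵥ p) + (U ∘ Sum.inr) ⬝ᵥ y := by
  rw [pt, dot_sum, dotProduct_smul, smul_eq_mul]

theorem serc_pt (K T : ℝ) (c : ι → ℝ) (d : κ → ℝ) (p : ι → ℝ) (y : κ → ℝ) :
    serc K T c d ⬝ᵥ pt K p y = c ⬝ᵥ p + d ⬝ᵥ y - (K * ∑ j, y j) * (T - c ⬝ᵥ p) := by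
  rw [dot_pt]
  have h1 : (serc K T c d ∘ Sum.inl) = c := by ext j; simp [serc]
  have h2 : (serc K T c d ∘ Sum.inr) ⬝ᵥ y = d ⬝ᵥ y - K * T * ∑ j, y j := by
    simp only [dotProduct, serc, Function.comp, Sum.elim_inr, sub_mul, sum_sub_distrib, mul_sum]
  rw [h1, h2]
  ring

theorem pt_zero (K : ℝ) (p : ι → ℝ) : pt K p (0 : κ → ℝ) = Sum.elim p 0 := by
  simp [pt]

theorem pt_zz (K : ℝ) : pt K (0 : ι → ℝ) (0 : κ → ℝ) = 0 := by
  rw [pt_zero]; ext j; cases j <;> simp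

theorem pt_inr (K : ℝ) (p : ι → ℝ) (y : κ → ℝ) : pt K p y ∘ Sum.inr = y := by
  ext j; simp [pt]

theorem pt_inl (K : ℝ) (p : ι → ℝ) (y : κ → ℝ) :
    pt K p y ∘ Sum.inl = (1 + K * ∑ j, y j) • p := by
  ext j; simp [pt]

/-- the properties of linear programs that are used: `t` is the top, `T` its value -/
structure Good (P : Set (ι → ℝ)) (c t : ι → ℝ) (T : ℝ) : Prop where
  conv : Convex ℝ P
  zero : 0 ∈ P
  nonneg : ∀ x ∈ P, ∀ j, 0 ≤ x j
  top : t ∈ P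
  val : c ⬝ᵥ t = T
  pos : 0 < T
  uniq : ∀ x ∈ P, x ≠ t → c ⬝ᵥ x < T
  gap : ∀ x ∈ P.extremePoints ℝ, x ≠ t → c ⬝ᵥ x ≤ T - 1
  bdd : ∃ B : ℝ, ∀ x ∈ P, ∀ j, x j ≤ B

section

variable {K T T' : ℝ} {P : Set (ι → ℝ)} {G : Set (κ → ℝ)} {c t : ι → ℝ} {d t' : κ → ℝ}

theorem Good.le {P : Set (ι → ℝ)} {c t : ι → ℝ} {T : ℝ} (h : Good P c t T) :
    ∀ x ∈ P, c ⬝ᵥ x ≤ T := by
  intro x hx
  by_cases e : x = t
  · rw [e, h.val]
  · exact (h.uniq x hx e).le

theorem sm_nonneg (hK : 0 ≤ K) (hG : Good G d t' T') {y : κ → ℝ} (hy : y ∈ G) :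
    0 ≤ K * ∑ j, y j := mul_nonneg hK (sum_nonneg fun j _ => hG.nonneg y hy j)

theorem pt_mem {p : ι → ℝ} {y : κ → ℝ} (hp : p ∈ P) (hy : y ∈ G) : pt K p y ∈ ser K P G :=
  ⟨p, hp, y, hy, rfl⟩

theorem pt_inj (hK : 0 ≤ K) (hG : Good G d t' T') {p q : ι → ℝ} {y z : κ → ℝ} (hy : y ∈ G)
    (h : pt K p y = pt K q z) : p = q ∧ y = z := by
  have h1 : y = z := by rw [← pt_inr K p y, h, pt_inr]
  refine ⟨?_, h1⟩
  have h2 : pt K p y ∘ Sum.inl = pt K q z ∘ Sum.inl := by rw [h]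
  rw [pt_inl, pt_inl, ← h1] at h2
  have h3 := sm_nonneg hK hG hy
  exact smul_right_injective (ι → ℝ) (by linarith : (1 + K * ∑ j, y j) ≠ 0) h2

theorem fib_mem (hP : Convex ℝ P) {p q : ι → ℝ} (hp : p ∈ P) (hq : q ∈ P) {θ : ℝ} (h0 : 0 ≤ θ)
    (h1 : θ ≤ 1) : p + θ • (q - p) ∈ P := by
  have := hP hp hq (sub_nonneg.2 h1) h0 (by ring)
  convert this using 1
  rw [smul_sub, sub_smul, one_smul]
  abel

theorem ser_mem_left (hP : Good P c t T) (hK : 0 ≤ K) (hG : Good G d t' T') {q p : ι → ℝ}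
    {z y : κ → ℝ} (hq : q ∈ P) (hp : p ∈ P) (hz : z ∈ G) (hy : y ∈ G) :
    ∃ ε : ℝ, 0 < ε ∧ pt K q z + ε • (Sum.elim ((1 + K * ∑ j, y j) • (p - q)) 0) ∈ ser K P G := by
  have h1 := sm_nonneg hK hG hz
  have h2 := sm_nonneg hK hG hy
  set s := K * ∑ j, z j with hs
  set r := K * ∑ j, y j with hr
  refine ⟨1 / (1 + r), by positivity, q + (1 / (1 + s)) • (p - q),
    fib_mem hP.conv hq hp (by positivity) ?_, z, hz, ?_⟩
  · rw [div_le_one (by linarith)]; linarith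
  · ext j
    rcases j with j | j
    · simp only [pt, Pi.add_apply, Pi.smul_apply, Sum.elim_inl, smul_eq_mul, Pi.sub_apply,
        ← hs, ← hr]
      have h3 : (1 + r) ≠ 0 := by linarith
      have h4 : (1 + s) ≠ 0 := by linarith
      field_simp
    · simp [pt]

theorem ser_mem_right (hP : Good P c t T) (hK : 0 ≤ K) (hG : Good G d t' T') {q : ι → ℝ}
    {z y : κ → ℝ} (hq : q ∈ P) (hz : z ∈ G) (hy : y ∈ G) :
    ∃ ε : ℝ, 0 < ε ∧ pt K q z + ε • (Sum.elim ((K * ∑ j, (y - z) j) • q) (y - z)) ∈ ser K P G := by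
  refine ⟨1, one_pos, q, hq, y, hy, ?_⟩
  ext j
  rcases j with j | j
  · simp only [pt, Pi.add_apply, Pi.smul_apply, Sum.elim_inl, smul_eq_mul, Pi.sub_apply,
      sum_sub_distrib]
    ring
  · simp [pt]

theorem split_eq {q p : ι → ℝ} {z y : κ → ℝ} :
    pt K p y - pt K q z = Sum.elim ((1 + K * ∑ j, y j) • (p - q)) 0 +
      Sum.elim ((K * ∑ j, (y - z) j) • q) (y - z) := by
  ext j
  rcases j with j | j
  · simp only [pt, Pi.add_apply, Pi.smul_apply, Sum.elim_inl, smul_eq_mul, Pi.sub_apply,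
      sum_sub_distrib]
    ring
  · simp [pt]

/-- in the first part: an improving edge does not change `y` -/
theorem first_part (hP : Good P c t T) (hK : 0 ≤ K) (hG : Good G d t' T')
    (hd : ∀ y ∈ G, d ⬝ᵥ y ≤ K * ∑ j, y j) {q : ι → ℝ} {z : ι ⊕ κ → ℝ} (hq : q ∈ P)
    (hgap : c ⬝ᵥ q ≤ T - 1) (h : Step (ser K P G) (serc K T c d) (pt K q 0) z) :
    ∃ p ∈ P, z = pt K p 0 := by
  obtain ⟨p, hp, y, hy, rfl⟩ := h.1.right
  have h0 := ser_mem_left hP hK hG hq hp hG.zero hy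
  have h1 := ser_mem_right hP hK hG hq hG.zero hy
  have e := split_eq (K := K) (q := q) (p := p) (z := (0 : κ → ℝ)) (y := y)
  obtain ⟨τ, hτ, h2⟩ := edge_split h.1 e h0 h1
  have h3 := h.2
  rw [serc_pt, serc_pt] at h3
  simp only [Pi.zero_apply, sum_const_zero, mul_zero, zero_mul, sub_zero, dotProduct_zero,
    add_zero] at h3
  have h4 := sm_nonneg hK hG hy
  have h5 := hd y hy
  have h6 : (K * ∑ j, y j) * 1 ≤ (K * ∑ j, y j) * (T - c ⬝ᵥ q) :=
    mul_le_mul_of_nonneg_left (by linarith) h4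
  have hpq : c ⬝ᵥ q < c ⬝ᵥ p := by
    by_contra hc
    push Not at hc
    have h7 : (K * ∑ j, y j) * (T - c ⬝ᵥ q) ≤ (K * ∑ j, y j) * (T - c ⬝ᵥ p) :=
      mul_le_mul_of_nonneg_left (by linarith) h4
    linarith
  have hpq' : p ≠ q := by
    rintro rfl
    exact lt_irrefl _ hpq
  refine ⟨p, hp, ?_⟩
  have hτ0 : τ ≠ 0 := by
    rintro rfl
    rw [zero_smul] at h2
    have h8 := congrArg (· ∘ Sum.inl) h2
    have h9 : (1 + K * ∑ j, y j) • (p - q) = 0 := by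
      ext j
      exact congrFun h8 j
    rcases smul_eq_zero.1 h9 with h10 | h10
    · linarith
    · exact hpq' (sub_eq_zero.1 h10)
  have hy0 : y = 0 := by
    ext j
    have := congrFun h2 (Sum.inr j)
    simp only [Sum.elim_inr, Pi.zero_apply, Pi.smul_apply, Pi.sub_apply, pt, smul_eq_mul,
      sub_zero] at this
    rcases mul_eq_zero.1 this.symm with h11 | h11
    · exact absurd h11 hτ0
    · exact h11
  rw [hy0]

/-- in the second part: an improving edge does not leave `t` -/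
theorem second_part (hP : Good P c t T) (hK : 0 ≤ K) (hG : Good G d t' T') {y : κ → ℝ}
    {z : ι ⊕ κ → ℝ} (hy : y ∈ G) (h : Step (ser K P G) (serc K T c d) (pt K t y) z) :
    ∃ y' ∈ G, z = pt K t y' := by
  obtain ⟨p, hp, y', hy', rfl⟩ := h.1.right
  have h0 := ser_mem_left hP hK hG hP.top hp hy hy'
  have h1 := ser_mem_right hP hK hG hP.top hy hy'
  have e := split_eq (K := K) (q := t) (p := p) (z := y) (y := y')
  rw [add_comm] at e
  obtain ⟨τ, hτ, h2⟩ := edge_split h.1 e h1 h0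
  have h3 := h.2
  rw [serc_pt, serc_pt, hP.val, sub_self, mul_zero, sub_zero] at h3
  have h4 := sm_nonneg hK hG hy'
  have h5 := hP.le p hp
  have h6 : 0 ≤ (K * ∑ j, y' j) * (T - c ⬝ᵥ p) := mul_nonneg h4 (by linarith)
  have hne : y' ≠ y := by
    rintro rfl
    linarith
  have hτ1 : τ = 1 := by
    obtain ⟨j, hj⟩ := Function.ne_iff.1 hne
    have := congrFun h2 (Sum.inr j)
    simp only [Sum.elim_inr, Pi.smul_apply, Pi.sub_apply, pt, smul_eq_mul] at this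
    have h7 : y' j - y j ≠ 0 := sub_ne_zero.2 hj
    have h8 : (1 - τ) * (y' j - y j) = 0 := by linarith
    rcases mul_eq_zero.1 h8 with h9 | h9
    · linarith
    · exact absurd h9 h7
  refine ⟨y', hy', ?_⟩
  rw [hτ1, one_smul] at h2
  rw [eq_comm, ← sub_eq_zero]
  have h10 : pt K p y' - pt K t y' = Sum.elim ((1 + K * ∑ j, y' j) • (p - t)) 0 := by
    ext j
    rcases j with j | j
    · simp only [pt, Pi.smul_apply, Sum.elim_inl, smul_eq_mul, Pi.sub_apply]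
      ring
    · simp [pt]
  have h11 : (Sum.elim ((1 + K * ∑ j, y' j) • (p - t)) 0 : ι ⊕ κ → ℝ) = 0 := by
    have := e
    rw [← h2] at this
    exact (add_eq_left.1 this.symm)
  rw [← neg_sub, h10, h11, neg_zero]

/-- edges of the composition in the face `y = 0` are edges of `P` -/
theorem edge_first (hK : 0 ≤ K) (hG : Good G d t' T') {p q : ι → ℝ}
    (h : Edge (ser K P G) (pt K p 0) (pt K q 0)) : Edge P p q := by
  obtain ⟨U, hU⟩ := h
  have hv : ∀ x : ι → ℝ, U ⬝ᵥ pt K x (0 : κ → ℝ) = (U ∘ Sum.inl) ⬝ᵥ x := by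
    intro x; rw [dot_pt]; simp
  have hmem : ∀ x : ι → ℝ, pt K x (0 : κ → ℝ) ∈ ser K P G → x ∈ P := by
    rintro x ⟨x', hx', y, hy, e⟩
    rw [(pt_inj hK hG hG.zero e).1]
    exact hx'
  have hseg : ∀ x : ι → ℝ, x ∈ segment ℝ p q ↔
      pt K x (0 : κ → ℝ) ∈ segment ℝ (pt K p (0 : κ → ℝ)) (pt K q 0) := by
    intro x
    rw [segment_eq_image', segment_eq_image']
    constructor
    · rintro ⟨θ, hθ, rfl⟩
      refine ⟨θ, hθ, ?_⟩
      ext j
      rcases j with j | j <;> simp [pt]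
    · rintro ⟨θ, hθ, e⟩
      refine ⟨θ, hθ, ?_⟩
      ext j
      have := congrFun e (Sum.inl j)
      simpa [pt] using this
  have h1 := (hU _).1 (left_mem_segment ℝ _ _)
  refine ⟨U ∘ Sum.inl, fun x => ?_⟩
  rw [hseg, hU]
  constructor
  · rintro ⟨h2, h3⟩
    refine ⟨hmem x h2, fun x' hx' => ?_⟩
    rw [← hv, ← hv]
    exact h3 _ (pt_mem hx' hG.zero)
  · rintro ⟨h2, h3⟩
    refine ⟨pt_mem h2 hG.zero, fun z hz => ?_⟩
    have h4 := h3 p (hmem p h1.1)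
    rw [← hv, ← hv] at h4
    exact (h1.2 z hz).trans h4

/-- edges of the composition over `t` are edges of `G` -/
theorem edge_second (hP : Good P c t T) (hK : 0 ≤ K) (hG : Good G d t' T') {y y' : κ → ℝ}
    (h : Edge (ser K P G) (pt K t y) (pt K t y')) : Edge G y y' := by
  obtain ⟨U, hU⟩ := h
  set u : κ → ℝ := fun j => U (Sum.inr j) + K * ((U ∘ Sum.inl) ⬝ᵥ t) with hu
  have hv : ∀ x : κ → ℝ, U ⬝ᵥ pt K t x = (U ∘ Sum.inl) ⬝ᵥ t + u ⬝ᵥ x := by
    intro x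
    rw [dot_pt]
    simp only [dotProduct, hu, Function.comp, add_mul, sum_add_distrib, mul_sum, sum_mul]
    have : ∑ i : ι, ∑ j : κ, K * x j * (U (Sum.inl i) * t i) =
      ∑ j : κ, ∑ i : ι, K * (U (Sum.inl i) * t i) * x j := by
      rw [sum_comm]
      exact sum_congr rfl fun j _ => sum_congr rfl fun i _ => by ring
    simp only [one_mul]
    rw [this]
    ring
  have hmem : ∀ x : κ → ℝ, pt K t x ∈ ser K P G → x ∈ G := by
    rintro x ⟨x', hx', y, hy, e⟩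
    have : pt K t x ∘ Sum.inr = pt K x' y ∘ Sum.inr := by rw [e]
    rw [pt_inr, pt_inr] at this
    rw [this]
    exact hy
  have hseg : ∀ x : κ → ℝ, x ∈ segment ℝ y y' ↔
      pt K t x ∈ segment ℝ (pt K t y) (pt K t y') := by
    intro x
    rw [segment_eq_image', segment_eq_image']
    constructor
    · rintro ⟨θ, hθ, rfl⟩
      refine ⟨θ, hθ, ?_⟩
      ext j
      rcases j with j | j
      · simp only [pt, Pi.add_apply, Pi.smul_apply, Sum.elim_inl, smul_eq_mul, Pi.sub_apply,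
          sum_add_distrib, ← mul_sum, sum_sub_distrib]
        ring
      · simp [pt]
    · rintro ⟨θ, hθ, e⟩
      refine ⟨θ, hθ, ?_⟩
      ext j
      have := congrFun e (Sum.inr j)
      simpa [pt] using this
  have h1 := (hU _).1 (left_mem_segment ℝ _ _)
  refine ⟨u, fun x => ?_⟩
  rw [hseg, hU]
  constructor
  · rintro ⟨h2, h3⟩
    refine ⟨hmem x h2, fun x' hx' => ?_⟩
    have := h3 _ (pt_mem (K := K) hP.top hx')
    rw [hv, hv] at this
    linarith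
  · rintro ⟨h2, h3⟩
    refine ⟨pt_mem hP.top h2, fun z hz => ?_⟩
    have h4 := h3 y (hmem y h1.1)
    have h5 := h1.2 z hz
    rw [hv] at h5 ⊢
    linarith

end

end Pool.Agent.Helper27.Sh
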