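import Pool.Agent.Helper27.Sh.Gadget3
set_option autoImplicit false
set_option linter.unusedSectionVars false
set_option linter.unusedVariables false
set_option linter.unusedSimpArgs false

/-!
There is an increasing path from `0` to the top of the gadget with `2 m + 1` steps.
-/

namespace Pool.Agent.Helper27.Sh

open Finset

theorem edge_of_line {ι : Type} [Fintype ι] {P : Set (ι → ℝ)} (hP : Convex ℝ P) {x y : ι → ℝ}
    (hx : x ∈ P) (hy : y ∈ P) (u : ι → ℝ) (β : ℝ) (hu : ∀ z ∈ P, u ⬝ᵥ z ≤ β) (hxu : u ⬝ᵥ x = β)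
    (hyu : u ⬝ᵥ y = β) (hline : ∀ z ∈ P, u ⬝ᵥ z = β → ∃ θ : ℝ, z = x + θ • (y - x))
    (f h : ι → ℝ) (hf : ∀ z ∈ P, f ⬝ᵥ x ≤ f ⬝ᵥ z) (hfy : f ⬝ᵥ x < f ⬝ᵥ y)
    (hh : ∀ z ∈ P, h ⬝ᵥ z ≤ h ⬝ᵥ y) (hhx : h ⬝ᵥ x < h ⬝ᵥ y) : Edge P x y := by
  refine ⟨u, fun z => ⟨fun hz => ?_, fun hz => ?_⟩⟩
  · have hzP : z ∈ P := hP.segment_subset hx hy hz
    rw [segment_eq_image'] at hz
    obtain ⟨θ, hθ, rfl⟩ := hz
    refine ⟨hzP, fun z hz => ?_⟩
    have : u ⬝ᵥ (x + θ • (y - x)) = β := by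
      rw [dotProduct_add, dotProduct_smul, dotProduct_sub, hxu, hyu, sub_self, smul_zero, add_zero]
    rw [this]
    exact hu z hz
  · have h1 : u ⬝ᵥ z = β := le_antisymm (hu z hz.1) (by rw [← hxu]; exact hz.2 x hx)
    obtain ⟨θ, rfl⟩ := hline z hz.1 h1
    have h2 := hf _ hz.1
    have h3 := hh _ hz.1
    rw [dotProduct_add, dotProduct_smul, dotProduct_sub, smul_eq_mul] at h2 h3
    rw [segment_eq_image']
    refine ⟨θ, ⟨?_, ?_⟩, rfl⟩
    · by_contra hc
      push Not at hc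
      have := mul_neg_of_neg_of_pos hc (sub_pos.2 hfy)
      linarith
    · by_contra hc
      push Not at hc
      have := mul_lt_mul_of_pos_right hc (sub_pos.2 hhx)
      linarith

/-- the coefficients of `Z i` as a vector -/
def zv (m i : ℕ) (j : Fin (m + 1)) : ℝ := zc m i j

theorem zv_dot (m i : ℕ) (x : Fin (m + 1) → ℝ) : zv m i ⬝ᵥ x = Z m x i := rfl

/-- the functional of the lower row -/
def lo (m i : ℕ) : Fin (m + 1) → ℝ := (-2 : ℝ) • zv m (i + 1) - zv m i

/-- the functional of the upper row -/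
def up (m i : ℕ) : Fin (m + 1) → ℝ := (2 : ℝ) • zv m (i + 1) - zv m i

theorem lo_dot (m i : ℕ) (x : Fin (m + 1) → ℝ) : lo m i ⬝ᵥ x = -2 * Z m x (i + 1) - Z m x i := by
  rw [lo, sub_dotProduct, smul_dotProduct, zv_dot, zv_dot, smul_eq_mul]

theorem up_dot (m i : ℕ) (x : Fin (m + 1) → ℝ) : up m i ⬝ᵥ x = 2 * Z m x (i + 1) - Z m x i := by
  rw [up, sub_dotProduct, smul_dotProduct, zv_dot, zv_dot, smul_eq_mul]

/-- points with the same `Z 1, …, Z r` and the same last coordinates are equal -/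
theorem same {m r : ℕ} (hr : r ≤ m) {x y : Fin (m + 1) → ℝ}
    (h1 : ∀ j < r, Z m x (j + 1) = Z m y (j + 1)) (h2 : ∀ j : Fin (m + 1), r ≤ j → x j = y j) :
    x = y := by
  set S := ∑ j : Fin (m + 1), (al m j : ℝ) * x j with hS
  set S' := ∑ j : Fin (m + 1), (al m j : ℝ) * y j with hS'
  have h3 : ∀ j : Fin (m + 1), (j : ℕ) < r → 16 ^ (m + 1) * (x j - y j) = S - S' := by
    intro j hj
    have h4 := h1 j hj
    rw [Z_succ, Z_succ, ← hS, ← hS'] at h4
    linarith
  have h5 : S - S' = ∑ j : Fin (m + 1), (al m j : ℝ) * (x j - y j) := by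
    rw [hS, hS', ← sum_sub_distrib]
    exact sum_congr rfl fun j _ => by ring
  have h6 : ∑ j : Fin (m + 1), (al m j : ℝ) * (x j - y j) =
      ∑ j ∈ range (m + 1), if j < r then (al m j : ℝ) * ((S - S') / 16 ^ (m + 1)) else 0 := by
    rw [← Fin.sum_univ_eq_sum_range (fun j => if j < r then
      (al m j : ℝ) * ((S - S') / 16 ^ (m + 1)) else 0) (m + 1)]
    refine sum_congr rfl fun j _ => ?_
    split_ifs with h
    · rw [← h3 j h]
      field_simp
    · rw [h2 j (by omega)]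
      ring
  rw [h6, ← sum_filter] at h5
  have h7 : (range (m + 1)).filter (fun j => j < r) = range r := by
    ext j
    simp only [mem_filter, mem_range]
    omega
  rw [h7, ← sum_mul] at h5
  have h8 : ∑ j ∈ range r, (al m j : ℝ) < 16 ^ (m + 1) := by
    have h9 : ∑ j ∈ range r, (al m j : ℝ) ≤ ∑ j ∈ range m, (al m j : ℝ) :=
      sum_le_sum_of_subset_of_nonneg (range_mono hr) fun i hi _ =>
        (al_pos (by have := mem_range.1 hi; omega)).le
    have h10 := geo m
    rw [sum_congr rfl fun j hj => al_lt (mem_range.1 hj)] at h9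
    have h11 : (0 : ℝ) < 4 ^ (m + 2) := by positivity
    have h12 := sixteen m
    linarith
  have h9 : S - S' = 0 := by
    by_contra hc
    have h10 : (S - S') * (16 ^ (m + 1) - ∑ j ∈ range r, (al m j : ℝ)) = 0 := by
      have h16 : (16 : ℝ) ^ (m + 1) ≠ 0 := by positivity
      rw [mul_div_assoc', eq_div_iff h16] at h5
      linear_combination h5
    rcases mul_eq_zero.1 h10 with h | h
    · exact hc h
    · linarith
  ext j
  rcases Nat.lt_or_ge (j : ℕ) r with h | h
  · have := h3 j h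
    rw [h9] at this
    have h16 : (0 : ℝ) < 16 ^ (m + 1) := by positivity
    rcases mul_eq_zero.1 this with h | h
    · exact absurd h h16.ne'
    · linarith
  · exact h2 j h

/-- the negative sequence -/
noncomputable def Nn (m : ℕ) : ℕ → ℝ := Ys m fun _ => -1

theorem neg_sgn : Sgn fun _ => (-1 : ℝ) := fun _ => Or.inr rfl

theorem Nn_succ {m j : ℕ} (h : j < m) : Nn m (j + 1) = -(1 + Nn m j / 2) := by
  rw [Nn, Ys, if_pos h]; ring

theorem Nn_bound (m : ℕ) : ∀ j ≤ m, -1 ≤ Nn m j ∧ Nn m j ≤ 0 := by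
  intro j
  induction j with
  | zero => intro _; rw [Nn, Ys]; norm_num
  | succ j ih =>
    intro hj
    obtain ⟨h1, h2⟩ := ih (by omega)
    rw [Nn_succ (by omega)]
    constructor <;> linarith

theorem Nn_neg {m j : ℕ} (h : j < m) : Nn m (j + 1) < 0 := by
  rw [Nn_succ h]
  linarith [(Nn_bound m j h.le).1]

/-- numerator and denominator of the common value -/
noncomputable def nu (m r : ℕ) : ℝ := -∑ j ∈ range r, (al m j : ℝ) * Nn m (j + 1)

noncomputable def de (m r : ℕ) : ℝ := 16 ^ (m + 1) - ∑ j ∈ range r, (al m j : ℝ)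

noncomputable def th (m r : ℕ) : ℝ := nu m r / de m r

theorem sum_r {m r : ℕ} (hr : r ≤ m) : 3 * ∑ j ∈ range r, (al m j : ℝ) ≤ 16 ^ (m + 1) := by
  have h9 : ∑ j ∈ range r, (al m j : ℝ) ≤ ∑ j ∈ range m, (al m j : ℝ) :=
    sum_le_sum_of_subset_of_nonneg (range_mono hr) fun i hi _ =>
      (al_pos (by have := mem_range.1 hi; omega)).le
  have h10 := geo m
  rw [sum_congr rfl fun j hj => al_lt (mem_range.1 hj)] at h9
  have h11 : (0 : ℝ) < 4 ^ (m + 2) := by positivity
  linarith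

theorem de_pos {m r : ℕ} (hr : r ≤ m) : 0 < de m r := by
  have h1 := sum_r hr
  have h2 := sixteen m
  rw [de]
  linarith

theorem nu_nonneg {m r : ℕ} (hr : r ≤ m) : 0 ≤ nu m r := by
  rw [nu, ← sum_neg_distrib]
  refine sum_nonneg fun j hj => ?_
  have h1 := mem_range.1 hj
  have h2 := (al_pos (m := m) (j := j) (by omega)).le
  have h3 := (Nn_neg (m := m) (j := j) (by omega)).le
  nlinarith

theorem nu_le {m r : ℕ} (hr : r ≤ m) : nu m r ≤ ∑ j ∈ range r, (al m j : ℝ) := by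
  rw [nu, ← sum_neg_distrib]
  refine sum_le_sum fun j hj => ?_
  have h1 := mem_range.1 hj
  have h2 := (al_pos (m := m) (j := j) (by omega)).le
  have h3 := (Nn_bound m (j + 1) (by omega)).1
  nlinarith

theorem th_nonneg {m r : ℕ} (hr : r ≤ m) : 0 ≤ th m r := div_nonneg (nu_nonneg hr) (de_pos hr).le

theorem th_le {m r : ℕ} (hr : r ≤ m) : th m r ≤ 1 / 2 := by
  rw [th, div_le_iff₀ (de_pos hr), de]
  have := nu_le hr
  have h2 := sum_r hr
  linarith

theorem th_lt {m r : ℕ} (hr : r < m) : th m r < th m (r + 1) := by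
  rw [th, th, div_lt_div_iff₀ (de_pos hr.le) (de_pos (by omega))]
  have h1 : nu m (r + 1) = nu m r - (al m r : ℝ) * Nn m (r + 1) := by
    rw [nu, nu, sum_range_succ]; ring
  have h2 : de m (r + 1) = de m r - al m r := by
    rw [de, de, sum_range_succ]; ring
  rw [h1, h2]
  have h3 := al_pos (m := m) (j := r) hr.le
  have h4 := Nn_neg hr
  have h5 := nu_nonneg (m := m) hr.le
  have h6 := de_pos (m := m) hr.le
  have h7 := mul_pos (mul_pos h3 (neg_pos.2 h4)) h6
  have h8 := mul_nonneg h5 h3.le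
  nlinarith

/-- coordinates of the vertices of the first part of the path -/
noncomputable def Yr (m r : ℕ) : ℕ → ℝ := fun j => if j ≤ r then Nn m j else th m r

theorem Yr_le {m r j : ℕ} (h : j ≤ r) : Yr m r j = Nn m j := by rw [Yr, if_pos h]

theorem Yr_gt {m r j : ℕ} (h : r < j) : Yr m r j = th m r := by rw [Yr, if_neg (by omega)]

theorem Yr_zero (m r : ℕ) : Yr m r 0 = 0 := by rw [Yr_le (Nat.zero_le _), Nn, Ys]

theorem Yr_sum {m r : ℕ} (hr : r ≤ m) : ∑ j ∈ range (m + 1), (al m j : ℝ) * Yr m r (j + 1) = th m r := by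
  have h1 : ∑ j ∈ range (m + 1), (al m j : ℝ) * Yr m r (j + 1) =
      ∑ j ∈ range r, (al m j : ℝ) * Yr m r (j + 1) +
        ∑ j ∈ Ico r (m + 1), (al m j : ℝ) * Yr m r (j + 1) := by
    rw [sum_range_add_sum_Ico _ (by omega)]
  have h2 : ∑ j ∈ range (m + 1), (al m j : ℝ) = ∑ j ∈ range r, (al m j : ℝ) +
      ∑ j ∈ Ico r (m + 1), (al m j : ℝ) := by
    rw [sum_range_add_sum_Ico _ (by omega)]
  rw [sum_al] at h2
  have h3 : ∑ j ∈ range r, (al m j : ℝ) * Yr m r (j + 1) = -nu m r := by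
    rw [nu, neg_neg]
    exact sum_congr rfl fun j hj => by rw [Yr_le (by have := mem_range.1 hj; omega)]
  have h4 : ∑ j ∈ Ico r (m + 1), (al m j : ℝ) * Yr m r (j + 1) =
      (∑ j ∈ Ico r (m + 1), (al m j : ℝ)) * th m r := by
    rw [sum_mul]
    exact sum_congr rfl fun j hj => by rw [Yr_gt (by have := mem_Ico.1 hj; omega)]
  have h5 : ∑ j ∈ Ico r (m + 1), (al m j : ℝ) = de m r + 1 := by rw [de]; linarith
  have h6 : th m r * de m r = nu m r := div_mul_cancel₀ _ (de_pos hr).ne'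
  rw [h1, h3, h4, h5]
  linear_combination h6

/-- the vertices of the first part of the path -/
noncomputable def Ur (m r : ℕ) : Fin (m + 1) → ℝ := pX m (Yr m r)

theorem Z_Ur {m r : ℕ} : ∀ j ≤ m + 1, Z m (Ur m r) j = Yr m r j := by
  intro j hj
  rcases j with _ | j
  · rw [Z_zero, Yr_zero]
  · exact Z_pX m _ j (by omega)

theorem Ur_ge {m r : ℕ} (hr : r ≤ m) {j : Fin (m + 1)} (h : r ≤ j) : Ur m r j = 0 := by
  rw [Ur, pX, Fin.sum_univ_eq_sum_range (fun j => (al m j : ℝ) * Yr m r (j + 1)) (m + 1),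
    Yr_sum hr, Yr_gt (by omega), sub_self, zero_div]

theorem Ur_lt {m r : ℕ} (hr : r ≤ m) {j : Fin (m + 1)} (h : j < r) :
    Ur m r j = (th m r - Nn m (j + 1)) / 16 ^ (m + 1) := by
  rw [Ur, pX, Fin.sum_univ_eq_sum_range (fun j => (al m j : ℝ) * Yr m r (j + 1)) (m + 1),
    Yr_sum hr, Yr_le (by omega)]

theorem Ur_pos {m r : ℕ} (hr : r ≤ m) {j : Fin (m + 1)} (h : j < r) : 0 < Ur m r j := by
  rw [Ur_lt hr h]
  have h1 := th_nonneg hr
  have h2 := Nn_neg (m := m) (j := j) (by omega)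
  exact div_pos (by linarith) (by positivity)

theorem Ur_mem {m r : ℕ} (hr : r ≤ m) : Ur m r ∈ Gd m := by
  have h1 := th_nonneg hr
  have h2 := th_le hr
  have hb : ∀ i, (2 : ℝ) ≤ bb m i := fun i => by rw [bb]; split_ifs <;> norm_num
  refine ⟨fun j => ?_, fun i hi => ?_, fun i hi => ?_⟩
  · rcases Nat.lt_or_ge (j : ℕ) r with h | h
    · exact (Ur_pos hr h).le
    · rw [Ur_ge hr h]
  · refine le_trans ?_ (hb i)
    rw [Z_Ur _ (by omega), Z_Ur _ (by omega)]
    rcases lt_trichotomy i r with h | h | h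
    · rw [Yr_le (by omega), Yr_le (by omega)]
      have h3 := Nn_bound m (i + 1) (by omega)
      have h4 := Nn_bound m i (by omega)
      linarith
    · subst h
      rw [Yr_gt (by omega), Yr_le le_rfl]
      have h4 := Nn_bound m i (by omega)
      linarith
    · rw [Yr_gt (by omega), Yr_gt (by omega)]
      linarith
  · rw [Z_Ur _ (by omega), Z_Ur _ (by omega)]
    rcases lt_trichotomy i r with h | h | h
    · rw [Yr_le (by omega), Yr_le (by omega), Nn_succ (by omega)]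
      linarith
    · subst h
      rw [Yr_gt (by omega), Yr_le le_rfl]
      have h4 := Nn_bound m i (by omega)
      linarith
    · rw [Yr_gt (by omega), Yr_gt (by omega)]
      linarith

theorem Ur_zero (m : ℕ) : Ur m 0 = 0 := by
  ext j
  rw [Ur_ge (Nat.zero_le _) (Nat.zero_le _)]
  rfl

/-- the end of the first part of the path -/
noncomputable def Ue (m : ℕ) : Fin (m + 1) → ℝ := pX m (Nn m)

theorem Z_Ue {m : ℕ} : ∀ j ≤ m + 1, Z m (Ue m) j = Nn m j := by
  intro j hj
  rcases j with _ | j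
  · rw [Z_zero, Nn, Ys]
  · exact Z_pX m _ j (by omega)

theorem Nn_last (m : ℕ) : Nn m (m + 1) = 3 + Nn m m / 2 := by
  rw [Nn, Ys, if_neg (by omega)]

theorem Ue_pos (m : ℕ) : 0 < Ue m (Fin.last m) := by
  rw [Ue, pX, Fin.sum_univ_eq_sum_range (fun j => (al m j : ℝ) * Nn m (j + 1)) (m + 1),
    sum_range_succ, Fin.val_last, Nn_last, al_last]
  refine div_pos ?_ (by positivity)
  have h1 : ∑ j ∈ range m, (al m j : ℝ) * Nn m (j + 1) = -nu m m := by rw [nu, neg_neg]
  have h2 := nu_le (le_refl m)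
  have h3 := sum_r (le_refl m)
  have h4 := geo m
  have h5 : (0 : ℝ) < 4 ^ (m + 2) := by positivity
  have h6 := (Nn_bound m m le_rfl).1
  have h7 := sixteen m
  set S := ∑ i ∈ range m, (4 : ℝ) ^ (m + 2 + i)
  rw [h1]
  have h8 : 0 < 16 ^ (m + 1) - S := by linarith
  have h9 : (16 ^ (m + 1) - S) * 2 ≤ (16 ^ (m + 1) - S) * (3 + Nn m m / 2) :=
    mul_le_mul_of_nonneg_left (by linarith) h8.le
  linarith

/-- a step of the first part of the path -/
theorem step_first {m r : ℕ} (hr : r ≤ m) {y : Fin (m + 1) → ℝ} (hy : y ∈ Gd m)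
    (h1 : ∀ j < r, Z m y (j + 1) = Nn m (j + 1)) (h2 : ∀ j : Fin (m + 1), r < j → y j = 0)
    (h3 : ∀ j : Fin (m + 1), (j : ℕ) = r → 0 < y j) (h : Fin (m + 1) → ℝ)
    (hh : ∀ z ∈ Gd m, h ⬝ᵥ z ≤ h ⬝ᵥ y) (hhx : h ⬝ᵥ Ur m r < h ⬝ᵥ y) : Edge (Gd m) (Ur m r) y := by
  classical
  have hcv := (good_gadget m).conv
  have hYZ : ∀ j ≤ r, Z m y j = Nn m j := by
    intro j hj
    rcases j with _ | j
    · rw [Z_zero, Nn, Ys]
    · exact h1 j (by omega)
  set rr : Fin (m + 1) := ⟨r, by omega⟩ with hrr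
  have hur : Ur m r rr = 0 := Ur_ge hr le_rfl
  set u : Fin (m + 1) → ℝ := ∑ j ∈ range r, lo m j - ∑ j ∈ univ.filter (fun j : Fin (m + 1) =>
    r < j), Pi.single j 1 with hu
  have hud : ∀ z : Fin (m + 1) → ℝ, u ⬝ᵥ z = ∑ j ∈ range r, (-2 * Z m z (j + 1) - Z m z j) -
      ∑ j ∈ univ.filter (fun j : Fin (m + 1) => r < j), z j := by
    intro z
    rw [hu, sub_dotProduct, sum_dotProduct, sum_dotProduct]
    congr 1
    · exact sum_congr rfl fun j _ => lo_dot m j z
    · exact sum_congr rfl fun j _ => by rw [single_dotProduct, one_mul]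
  have hval : ∀ z : Fin (m + 1) → ℝ, (∀ j ≤ r, Z m z j = Nn m j) →
      (∀ j : Fin (m + 1), r < j → z j = 0) → u ⬝ᵥ z = 2 * r := by
    intro z h4 h5
    rw [hud, sum_congr rfl fun j hj => by
      have := mem_range.1 hj
      rw [h4 (j + 1) (by omega), h4 j (by omega), Nn_succ (by omega)],
      sum_eq_zero (s := univ.filter _) fun j hj => h5 j (mem_filter.1 hj).2]
    rw [sum_congr rfl fun j _ => (by ring : -2 * -(1 + Nn m j / 2) - Nn m j = 2), sum_const,
      card_range]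
    simp
    ring
  refine edge_of_line hcv (Ur_mem hr) hy u (2 * r) (fun z hz => ?_) (hval _ (fun j hj => ?_)
    fun j hj => Ur_ge hr hj.le) (hval _ hYZ h2) (fun z hz hzu => ?_) (Pi.single rr 1) h
    (fun z hz => ?_) ?_ hh hhx
  · rw [hud]
    have h4 : ∑ j ∈ range r, (-2 * Z m z (j + 1) - Z m z j) ≤ ∑ j ∈ range r, (2 : ℝ) :=
      sum_le_sum fun j hj => hz.2.2 j (by have := mem_range.1 hj; omega)
    have h5 : 0 ≤ ∑ j ∈ univ.filter (fun j : Fin (m + 1) => r < j), z j :=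
      sum_nonneg fun j _ => hz.1 j
    rw [sum_const, card_range, nsmul_eq_mul] at h4
    linarith
  · rw [Z_Ur _ (by omega), Yr_le hj]
  · -- the line
    rw [hud] at hzu
    have h4 : ∑ j ∈ range r, (2 - (-2 * Z m z (j + 1) - Z m z j)) +
        ∑ j ∈ univ.filter (fun j : Fin (m + 1) => r < j), z j = 0 := by
      rw [sum_sub_distrib, sum_const, card_range, nsmul_eq_mul]
      linarith
    have h5 : 0 ≤ ∑ j ∈ range r, (2 - (-2 * Z m z (j + 1) - Z m z j)) :=
      sum_nonneg fun j hj => sub_nonneg.2 (hz.2.2 j (by have := mem_range.1 hj; omega))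
    have h6 : 0 ≤ ∑ j ∈ univ.filter (fun j : Fin (m + 1) => r < j), z j :=
      sum_nonneg fun j _ => hz.1 j
    have h7 := (sum_eq_zero_iff_of_nonneg (fun j hj => sub_nonneg.2 (hz.2.2 j
      (by have := mem_range.1 hj; omega)))).1 (by linarith :
        ∑ j ∈ range r, (2 - (-2 * Z m z (j + 1) - Z m z j)) = 0)
    have h8 := (sum_eq_zero_iff_of_nonneg (fun j _ => hz.1 j)).1 (by linarith :
      ∑ j ∈ univ.filter (fun j : Fin (m + 1) => r < j), z j = 0)
    have h9 : ∀ j ≤ r, Z m z j = Nn m j := by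
      intro j
      induction j with
      | zero => intro _; rw [Z_zero, Nn, Ys]
      | succ j ih =>
        intro hj
        have h10 := h7 j (mem_range.2 (by omega))
        have h11 := ih (by omega)
        rw [Nn_succ (by omega), ← h11]
        linarith
    have h3' := h3 rr rfl
    refine ⟨z rr / y rr, ?_⟩
    refine same hr (fun j hj => ?_) (fun j hj => ?_)
    · have h12 : Ur m r + (z rr / y rr) • (y - Ur m r) =
          (1 - z rr / y rr) • Ur m r + (z rr / y rr) • y := by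
        rw [smul_sub, sub_smul, one_smul]; abel
      rw [h12, Z_comb, h9 _ (by omega), h1 j hj, Z_Ur _ (by omega), Yr_le (by omega)]
      ring
    · simp only [Pi.add_apply, Pi.smul_apply, Pi.sub_apply, smul_eq_mul]
      rcases Nat.lt_or_ge r (j : ℕ) with h | h
      · rw [h8 j (mem_filter.2 ⟨mem_univ _, h⟩), h2 j h, Ur_ge hr h.le]
        ring
      · have : j = rr := Fin.ext (by simp [hrr]; omega)
        rw [this, hur]
        field_simp
        ring
  · rw [single_dotProduct, single_dotProduct, one_mul, one_mul, hur]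
    exact hz.1 rr
  · rw [single_dotProduct, single_dotProduct, one_mul, one_mul, hur]
    exact h3 rr rfl

theorem Ur_step {m r : ℕ} (hr : r < m) : Step (Gd m) (cc m) (Ur m r) (Ur m (r + 1)) := by
  refine ⟨step_first hr.le (Ur_mem (by omega)) (fun j hj => ?_) (fun j hj => Ur_ge (by omega) hj)
    (fun j hj => Ur_pos (by omega) (by omega)) (lo m r) (fun z hz => ?_) ?_, ?_⟩
  · rw [Z_Ur _ (by omega), Yr_le (by omega)]
  · rw [lo_dot, lo_dot, Z_Ur _ (by omega), Z_Ur _ (by omega), Yr_le (by omega), Yr_le (by omega),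
      Nn_succ hr]
    have := hz.2.2 r hr.le
    linarith
  · rw [lo_dot, lo_dot, Z_Ur _ (by omega), Z_Ur _ (by omega), Z_Ur _ (by omega), Z_Ur _ (by omega),
      Yr_gt (by omega), Yr_le (by omega), Yr_le (by omega), Yr_le (by omega), Nn_succ hr]
    have h1 := th_nonneg (m := m) hr.le
    have h2 := (Nn_bound m r hr.le).1
    linarith
  · rw [cc_dot, cc_dot, Z_Ur _ le_rfl, Z_Ur _ le_rfl, Yr_gt (by omega), Yr_gt (by omega)]
    exact mul_lt_mul_of_pos_left (th_lt hr) (by positivity)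

theorem Ue_mem (m : ℕ) : Ue m ∈ Gd m := Ys_mem neg_sgn

theorem Ue_step (m : ℕ) : Step (Gd m) (cc m) (Ur m m) (Ue m) := by
  refine ⟨step_first le_rfl (Ue_mem m) (fun j hj => Z_Ue _ (by omega)) (fun j hj => ?_)
    (fun j hj => ?_) (up m m) (fun z hz => ?_) ?_, ?_⟩
  · exact absurd hj (by have := j.2; omega)
  · have : j = Fin.last m := Fin.ext (by simp; omega)
    rw [this]
    exact Ue_pos m
  · rw [up_dot, up_dot, Z_Ue _ le_rfl, Z_Ue _ (by omega), Nn_last]
    have := hz.2.1 m le_rfl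
    rw [bb, if_neg (by omega)] at this
    push_cast at this
    linarith
  · rw [up_dot, up_dot, Z_Ue _ le_rfl, Z_Ue _ (by omega), Nn_last, Z_Ur _ le_rfl, Z_Ur _ (by omega),
      Yr_gt (by omega), Yr_le le_rfl]
    have h1 := th_le (le_refl m)
    have h2 := (Nn_bound m m le_rfl).1
    linarith
  · rw [cc_dot, cc_dot, Z_Ur _ le_rfl, Z_Ue _ le_rfl, Nn_last, Yr_gt (by omega)]
    refine mul_lt_mul_of_pos_left ?_ (by positivity)
    have h1 := th_le (le_refl m)
    have h2 := (Nn_bound m m le_rfl).1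
    linarith

end Pool.Agent.Helper27.Sh
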