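import Pool.Agent.Helper27.Sh.Short
set_option autoImplicit false
set_option linter.unusedSectionVars false
set_option linter.unusedVariables false
set_option linter.unusedSimpArgs false

/-!
There is an increasing path from `0` to the top of the gadget with `2 m + 1` steps, and short paths in
serial compositions.
-/

namespace Pool.Agent.Helper27.Sh

open Finset

/-- signs of the second part of the path -/
def sV (s : ℕ) : ℕ → ℝ := fun j => if j < s then -1 else 1

theorem sV_sgn (s : ℕ) : Sgn (sV s) := by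
  intro i
  rw [sV]
  split_ifs <;> simp

/-- the vertices of the second part of the path -/
noncomputable def V (m s : ℕ) : Fin (m + 1) → ℝ := pX m (Ys m (sV s))

theorem Z_V {m s : ℕ} : ∀ j ≤ m + 1, Z m (V m s) j = Ys m (sV s) j := by
  intro j hj
  rcases j with _ | j
  · rw [Z_zero, Ys]
  · exact Z_pX m _ j (by omega)

theorem V_mem (m s : ℕ) : V m s ∈ Gd m := Ys_mem (sV_sgn s)

theorem V_lo {m s j : ℕ} (hs : s ≤ m) (hj : j < s) :
    -2 * Z m (V m s) (j + 1) - Z m (V m s) j = 2 := by
  rw [Z_V _ (by omega), Z_V _ (by omega), Ys, if_pos (by omega), sV, if_pos hj]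
  ring

theorem V_up {m s j : ℕ} (hs : s ≤ j) (hj : j ≤ m) :
    2 * Z m (V m s) (j + 1) - Z m (V m s) j = bb m j := by
  rw [Z_V _ (by omega), Z_V _ (by omega), Ys]
  rcases hj.lt_or_eq with h | h
  · rw [if_pos h, sV, if_neg (by omega), bb, if_pos h]
    push_cast; ring
  · subst h
    rw [if_neg (by omega), bb, if_neg (by omega)]
    push_cast; ring

theorem V_same {m s : ℕ} (hs : s < m) : ∀ j ≤ s, Z m (V m (s + 1)) j = Z m (V m s) j := by
  intro j
  induction j with
  | zero => intro _; rw [Z_zero, Z_zero]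
  | succ j ih =>
    intro hj
    have h1 := V_lo (m := m) (s := s + 1) (j := j) (by omega) (by omega)
    have h2 := V_lo (m := m) (s := s) (j := j) (by omega) (by omega)
    rw [ih (by omega)] at h1
    linarith

theorem V_last_eq (m : ℕ) : V m m = Ue m := by
  have h : ∀ i ≤ m + 1, Z m (V m m) i = Z m (Ue m) i := by
    intro i
    induction i with
    | zero => intro _; rw [Z_zero, Z_zero]
    | succ i ih =>
      intro hi
      have h1 := ih (by omega)
      rcases Nat.lt_or_ge i m with h | h
      · have h2 := V_lo (le_refl m) h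
        rw [Z_Ue _ (by omega), Nn_succ h, ← Z_Ue _ (by omega), ← h1]
        linarith
      · have : i = m := by omega
        subst this
        have h2 := V_up (m := i) (s := i) le_rfl le_rfl
        rw [bb, if_neg (by omega)] at h2
        push_cast at h2
        rw [Z_Ue _ (by omega), Nn_last, ← Z_Ue _ (by omega), ← h1]
        linarith
  exact Z_ext fun i hi => h (i + 1) (by omega)

theorem V_zero_eq (m : ℕ) : V m 0 = tp m := by
  have h : sV 0 = fun _ => 1 := by
    ext j; rw [sV, if_neg (by omega)]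
  rw [V, h, tp]

theorem V_edge {m s : ℕ} (hs : s < m) : Edge (Gd m) (V m (s + 1)) (V m s) := by
  have hcv := (good_gadget m).conv
  set u : Fin (m + 1) → ℝ := ∑ j ∈ range s, lo m j + ∑ j ∈ Ioc s m, up m j with hu
  have hud : ∀ z : Fin (m + 1) → ℝ, u ⬝ᵥ z = ∑ j ∈ range s, (-2 * Z m z (j + 1) - Z m z j) +
      ∑ j ∈ Ioc s m, (2 * Z m z (j + 1) - Z m z j) := by
    intro z
    rw [hu, add_dotProduct, sum_dotProduct, sum_dotProduct]
    congr 1
    · exact sum_congr rfl fun j _ => lo_dot m j z
    · exact sum_congr rfl fun j _ => up_dot m j z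
  set β : ℝ := ∑ j ∈ range s, (2 : ℝ) + ∑ j ∈ Ioc s m, (bb m j : ℝ) with hβ
  have h1 : u ⬝ᵥ V m (s + 1) = β := by
    rw [hud, hβ]
    congr 1
    · exact sum_congr rfl fun j hj => V_lo (by omega) (by have := mem_range.1 hj; omega)
    · exact sum_congr rfl fun j hj => V_up (by have := mem_Ioc.1 hj; omega)
        (by have := mem_Ioc.1 hj; omega)
  have h2 : u ⬝ᵥ V m s = β := by
    rw [hud, hβ]
    congr 1
    · exact sum_congr rfl fun j hj => V_lo (by omega) (by have := mem_range.1 hj; omega)
    · exact sum_congr rfl fun j hj => V_up (by have := mem_Ioc.1 hj; omega)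
        (by have := mem_Ioc.1 hj; omega)
  have hZs := Z_lt (V_mem m s) (i := s) hs.le
  have hlo := V_lo (m := m) (s := s + 1) (j := s) (by omega) (by omega)
  have hup := V_up (m := m) (s := s) (j := s) le_rfl hs.le
  rw [V_same hs s le_rfl] at hlo
  rw [bb, if_pos hs] at hup
  push_cast at hup
  refine edge_of_line hcv (V_mem _ _) (V_mem _ _) u β (fun z hz => ?_) h1 h2 (fun z hz hzu => ?_)
    (-lo m s) (up m s) (fun z hz => ?_) ?_ (fun z hz => ?_) ?_
  · rw [hud, hβ]
    exact add_le_add (sum_le_sum fun j hj => hz.2.2 j (by have := mem_range.1 hj; omega))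
      (sum_le_sum fun j hj => hz.2.1 j (by have := mem_Ioc.1 hj; omega))
  · rw [hud, hβ] at hzu
    have h3 : ∑ j ∈ range s, (2 - (-2 * Z m z (j + 1) - Z m z j)) +
        ∑ j ∈ Ioc s m, ((bb m j : ℝ) - (2 * Z m z (j + 1) - Z m z j)) = 0 := by
      have e1 := sum_sub_distrib (s := range s) (fun _ => (2 : ℝ))
        (fun j => -2 * Z m z (j + 1) - Z m z j)
      have e2 := sum_sub_distrib (s := Ioc s m) (fun j => (bb m j : ℝ))
        (fun j => 2 * Z m z (j + 1) - Z m z j)
      linarith
    have h4 : ∀ j ∈ range s, 0 ≤ 2 - (-2 * Z m z (j + 1) - Z m z j) := fun j hj =>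
      sub_nonneg.2 (hz.2.2 j (by have := mem_range.1 hj; omega))
    have h5 : ∀ j ∈ Ioc s m, 0 ≤ (bb m j : ℝ) - (2 * Z m z (j + 1) - Z m z j) := fun j hj =>
      sub_nonneg.2 (hz.2.1 j (by have := mem_Ioc.1 hj; omega))
    have h6 := sum_nonneg h4
    have h7 := sum_nonneg h5
    have h8 := (sum_eq_zero_iff_of_nonneg h4).1 (by linarith)
    have h9 := (sum_eq_zero_iff_of_nonneg h5).1 (by linarith)
    set a := Z m (V m (s + 1)) (s + 1) with ha
    set b := Z m (V m s) (s + 1) with hb
    have hab : 0 < b - a := by linarith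
    refine ⟨(Z m z (s + 1) - a) / (b - a), ?_⟩
    set θ := (Z m z (s + 1) - a) / (b - a) with hθ
    have h10 : V m (s + 1) + θ • (V m s - V m (s + 1)) = (1 - θ) • V m (s + 1) + θ • V m s := by
      rw [smul_sub, sub_smul, one_smul]; abel
    rw [h10]
    have key : ∀ i ≤ m + 1, Z m z i = (1 - θ) * Z m (V m (s + 1)) i + θ * Z m (V m s) i := by
      intro i
      induction i with
      | zero => intro _; rw [Z_zero, Z_zero, Z_zero]; ring
      | succ i ih =>
        intro hi
        have h11 := ih (by omega)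
        rcases lt_trichotomy i s with h | h | h
        · have h12 := h8 i (mem_range.2 h)
          have h13 := V_lo (m := m) (s := s + 1) (j := i) (by omega) (by omega)
          have h14 := V_lo (m := m) (s := s) (j := i) (by omega) h
          linear_combination (-1 / 2) * h11 + (1 / 2) * h12 + ((1 - θ) / 2) * h13 + (θ / 2) * h14
        · subst h
          rw [← ha, ← hb, hθ]
          field_simp
          ring
        · have h12 := h9 i (mem_Ioc.2 ⟨h, by omega⟩)
          have h13 := V_up (m := m) (s := s + 1) (j := i) (by omega) (by omega)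
          have h14 := V_up (m := m) (s := s) (j := i) (by omega) (by omega)
          linear_combination (1 / 2) * h11 + (-1 / 2) * h12 + (-(1 - θ) / 2) * h13 +
            (-θ / 2) * h14
    refine Z_ext fun i hi => ?_
    rw [Z_comb, key (i + 1) (by omega)]
  · have h3 := hz.2.2 s hs.le
    have h4 := V_lo (m := m) (s := s + 1) (j := s) (by omega) (by omega)
    rw [neg_dotProduct, neg_dotProduct, lo_dot, lo_dot, h4]
    linarith
  · have h4 := V_lo (m := m) (s := s + 1) (j := s) (by omega) (by omega)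
    rw [neg_dotProduct, neg_dotProduct, lo_dot, lo_dot, h4]
    linarith [hZs.1]
  · rw [up_dot, up_dot]
    have h3 := hz.2.1 s hs.le
    rw [bb, if_pos hs] at h3
    push_cast at h3
    linarith
  · rw [up_dot, up_dot, V_same hs s le_rfl]
    linarith [hZs.1]

theorem V_step {m s : ℕ} (hs : s < m) : Step (Gd m) (cc m) (V m (s + 1)) (V m s) := by
  refine ⟨V_edge hs, ?_⟩
  rw [cc_dot, cc_dot]
  refine mul_lt_mul_of_pos_left ?_ (by positivity)
  have h : ∀ i, s + 1 ≤ i → i ≤ m + 1 → Z m (V m (s + 1)) i < Z m (V m s) i := by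
    intro i hi
    induction i, hi using Nat.le_induction with
    | base =>
      intro _
      have hlo := V_lo (m := m) (s := s + 1) (j := s) (by omega) (by omega)
      have hup := V_up (m := m) (s := s) (j := s) le_rfl hs.le
      rw [V_same hs s le_rfl] at hlo
      rw [bb, if_pos hs] at hup
      push_cast at hup
      have hZs := Z_lt (V_mem m s) (i := s) hs.le
      linarith
    | succ i hi ih =>
      intro hi'
      have h1 := ih (by omega)
      have h2 := V_up (m := m) (s := s + 1) (j := i) (by omega) (by omega)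
      have h3 := V_up (m := m) (s := s) (j := i) (by omega) (by omega)
      linarith
  exact h (m + 1) (by omega) le_rfl

/-- there is an increasing path with `L` steps -/
def ShortP {ι : Type} [Fintype ι] (P : Set (ι → ℝ)) (c t : ι → ℝ) (L : ℕ) : Prop :=
  ∃ x : ℕ → ι → ℝ, x 0 = 0 ∧ x L = t ∧ ∀ i < L, Step P c (x i) (x (i + 1))

theorem short_gadget (m : ℕ) : ShortP (Gd m) (cc m) (tp m) (2 * m + 1) := by
  refine ⟨fun i => if i ≤ m then Ur m i else V m (2 * m + 1 - i), ?_, ?_, fun i hi => ?_⟩
  · dsimp only; rw [if_pos (Nat.zero_le _), Ur_zero]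
  · dsimp only; rw [if_neg (by omega), Nat.sub_self, V_zero_eq]
  · dsimp only
    rcases lt_trichotomy i m with h | h | h
    · rw [if_pos h.le, if_pos (by omega)]
      exact Ur_step h
    · subst h
      rw [if_pos le_rfl, if_neg (by omega), show 2 * i + 1 - (i + 1) = i by omega, V_last_eq]
      exact Ue_step i
    · rw [if_neg (by omega), if_neg (by omega), show 2 * m + 1 - i = (2 * m - i) + 1 by omega,
        show 2 * m + 1 - (i + 1) = 2 * m - i by omega]
      exact V_step (by omega)

section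

variable {ι κ : Type} [Fintype ι] [Fintype κ] {K T T' : ℝ} {P : Set (ι → ℝ)} {G : Set (κ → ℝ)}
  {c t : ι → ℝ} {d t' : κ → ℝ}

theorem lift_first (hP : Good P c t T) (hK : 0 ≤ K) (hG : Good G d t' T') {p q : ι → ℝ}
    (h : Step P c p q) : Step (ser K P G) (serc K T c d) (pt K p 0) (pt K q 0) := by
  obtain ⟨⟨u, hu⟩, hval⟩ := h
  have hp := (hu p).1 (left_mem_segment ℝ p q)
  refine ⟨⟨Sum.elim u fun _ => -(K * |u ⬝ᵥ p| + 1), fun z => ?_⟩, ?_⟩
  · have hv : ∀ (x : ι → ℝ) (y : κ → ℝ), (Sum.elim u fun _ => -(K * |u ⬝ᵥ p| + 1)) ⬝ᵥ pt K x y =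
        (1 + K * ∑ j, y j) * (u ⬝ᵥ x) - (K * |u ⬝ᵥ p| + 1) * ∑ j, y j := by
      intro x y
      rw [dot_pt]
      have e1 : (Sum.elim u fun _ : κ => -(K * |u ⬝ᵥ p| + 1)) ∘ Sum.inl = u := by
        ext j; simp
      have e2 : ((Sum.elim u fun _ : κ => -(K * |u ⬝ᵥ p| + 1)) ∘ Sum.inr) ⬝ᵥ y =
          -((K * |u ⬝ᵥ p| + 1) * ∑ j, y j) := by
        simp only [dotProduct, Function.comp, Sum.elim_inr, mul_sum, neg_mul, sum_neg_distrib]
      rw [e1, e2]
      ring
    have hle : ∀ x ∈ P, ∀ y ∈ G, (1 + K * ∑ j, y j) * (u ⬝ᵥ x) -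
        (K * |u ⬝ᵥ p| + 1) * ∑ j, y j ≤ u ⬝ᵥ p - ∑ j, y j ∧
        (1 + K * ∑ j, y j) * (u ⬝ᵥ x) - (K * |u ⬝ᵥ p| + 1) * ∑ j, y j ≤ u ⬝ᵥ x - ∑ j, y j := by
      intro x hx y hy
      have h1 := hp.2 x hx
      have h2 := sm_nonneg hK hG hy
      have h3 : u ⬝ᵥ x ≤ |u ⬝ᵥ p| := h1.trans (le_abs_self _)
      have h4 : (K * ∑ j, y j) * (u ⬝ᵥ x) ≤ (K * ∑ j, y j) * |u ⬝ᵥ p| :=
        mul_le_mul_of_nonneg_left h3 h2
      have e : (K * |u ⬝ᵥ p| + 1) * ∑ j, y j = (K * ∑ j, y j) * |u ⬝ᵥ p| + ∑ j, y j := by ring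
      constructor
      · linarith
      · linarith
    constructor
    · intro hz
      rw [segment_eq_image'] at hz
      obtain ⟨θ, hθ, rfl⟩ := hz
      have e : pt K p (0 : κ → ℝ) + θ • (pt K q 0 - pt K p 0) = pt K (p + θ • (q - p)) 0 := by
        ext j
        rcases j with j | j <;> simp [pt]
      dsimp only
      rw [e]
      have hm := (hu (p + θ • (q - p))).1 (by rw [segment_eq_image']; exact ⟨θ, hθ, rfl⟩)
      refine ⟨pt_mem hm.1 hG.zero, ?_⟩
      rintro _ ⟨x, hx, y, hy, rfl⟩
      rw [hv, hv]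
      have h1 := (hle x hx y hy).2
      have h2 := hm.2 x hx
      have h3 : 0 ≤ ∑ j, y j := sum_nonneg fun j _ => hG.nonneg y hy j
      simp only [Pi.zero_apply, sum_const_zero, mul_zero, add_zero, one_mul, sub_zero]
      linarith
    · rintro ⟨⟨x, hx, y, hy, rfl⟩, hz⟩
      have h1 := hz _ (pt_mem (K := K) hp.1 hG.zero)
      rw [hv, hv] at h1
      simp only [Pi.zero_apply, sum_const_zero, mul_zero, add_zero, one_mul, sub_zero] at h1
      have h2 := (hle x hx y hy).1
      have h2' := (hle x hx y hy).2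
      have h3 : 0 ≤ ∑ j, y j := sum_nonneg fun j _ => hG.nonneg y hy j
      have h4 : ∑ j, y j = 0 := by linarith
      have h5 : y = 0 := by
        ext j
        exact (sum_eq_zero_iff_of_nonneg (fun j _ => hG.nonneg y hy j)).1 h4 j (mem_univ j)
      subst h5
      have h6 : Maxi P u x := ⟨hx, fun x' hx' => by
        have := hp.2 x' hx'
        simp only [Pi.zero_apply, sum_const_zero, mul_zero, add_zero, one_mul, sub_zero] at h1
        linarith⟩
      have h7 := (hu x).2 h6
      rw [segment_eq_image'] at h7 ⊢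
      obtain ⟨θ, hθ, rfl⟩ := h7
      refine ⟨θ, hθ, ?_⟩
      ext j
      rcases j with j | j <;> simp [pt]
  · rw [serc_pt, serc_pt]
    simpa using hval

theorem lift_second (hP : Good P c t T) (hK : 0 ≤ K) (hG : Good G d t' T') {y y' : κ → ℝ}
    (h : Step G d y y') : Step (ser K P G) (serc K T c d) (pt K t y) (pt K t y') := by
  obtain ⟨⟨u, hu⟩, hval⟩ := h
  have hp := (hu y).1 (left_mem_segment ℝ y y')
  have hseg : ∀ x : κ → ℝ, x ∈ segment ℝ y y' ↔
      pt K t x ∈ segment ℝ (pt K t y) (pt K t y') := by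
    intro x
    rw [segment_eq_image', segment_eq_image']
    constructor
    · rintro ⟨θ, hθ, rfl⟩
      refine ⟨θ, hθ, ?_⟩
      ext j
      rcases j with j | j
      · simp only [pt, Pi.add_apply, Pi.smul_apply, Sum.elim_inl, smul_eq_mul, Pi.sub_apply,
          sum_add_distrib, ← mul_sum, sum_sub_distrib]
        ring
      · simp [pt]
    · rintro ⟨θ, hθ, e⟩
      refine ⟨θ, hθ, ?_⟩
      ext j
      have := congrFun e (Sum.inr j)
      simpa [pt] using this
  refine ⟨⟨serc K T c u, fun z => ?_⟩, ?_⟩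
  · have hle : ∀ x ∈ P, ∀ z ∈ G, serc K T c u ⬝ᵥ pt K x z ≤ c ⬝ᵥ x + u ⬝ᵥ z := by
      intro x hx z hz
      rw [serc_pt]
      have h1 := hP.le x hx
      have h2 := sm_nonneg hK hG hz
      have h3 : 0 ≤ (K * ∑ j, z j) * (T - c ⬝ᵥ x) := mul_nonneg h2 (by linarith)
      linarith
    constructor
    · intro hz
      have hz' := hz
      rw [segment_eq_image'] at hz
      obtain ⟨θ, hθ, hzz⟩ := hz
      have e : z = pt K t (y + θ • (y' - y)) := by
        rw [← hzz]
        ext j
        rcases j with j | j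
        · simp only [pt, Pi.add_apply, Pi.smul_apply, Sum.elim_inl, smul_eq_mul, Pi.sub_apply,
            sum_add_distrib, ← mul_sum, sum_sub_distrib]
          ring
        · simp [pt]
      rw [e] at hz' ⊢
      have hm := (hu _).1 ((hseg _).2 hz')
      refine ⟨pt_mem hP.top hm.1, ?_⟩
      rintro _ ⟨x, hx, w, hw, rfl⟩
      rw [serc_pt _ _ _ _ t, hP.val, sub_self, mul_zero, sub_zero]
      have h1 := hle x hx w hw
      have h2 := hP.le x hx
      have h3 := hm.2 w hw
      linarith
    · rintro ⟨⟨x, hx, w, hw, rfl⟩, hz⟩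
      have h1 := hz _ (pt_mem (K := K) hP.top hp.1)
      rw [serc_pt _ _ _ _ t, hP.val, sub_self, mul_zero, sub_zero] at h1
      have h2 := hle x hx w hw
      have h3 := hp.2 w hw
      have h4 := hP.le x hx
      have hxt : x = t := by
        by_contra hne
        have := hP.uniq x hx hne
        linarith
      subst hxt
      rw [← hseg, hu]
      refine ⟨hw, fun w' hw' => ?_⟩
      have := hp.2 w' hw'
      rw [hP.val] at h2
      linarith
  · rw [serc_pt, serc_pt, hP.val]
    simpa using hval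

theorem short_ser {L L' : ℕ} (hP : Good P c t T) (hK : 0 ≤ K) (hG : Good G d t' T')
    (h1 : ShortP P c t L) (h2 : ShortP G d t' L') :
    ShortP (ser K P G) (serc K T c d) (pt K t t') (L + L') := by
  obtain ⟨x, hx0, hxL, hx⟩ := h1
  obtain ⟨y, hy0, hyL, hy⟩ := h2
  refine ⟨fun i => if i ≤ L then pt K (x i) 0 else pt K t (y (i - L)), ?_, ?_, fun i hi => ?_⟩
  · dsimp only; rw [if_pos (Nat.zero_le _), hx0, pt_zz]
  · dsimp only
    rcases Nat.eq_zero_or_pos L' with h | h
    · subst h
      rw [if_pos (by omega), add_zero, hxL]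
      rw [hy0] at hyL
      rw [← hyL]
    · rw [if_neg (by omega), Nat.add_sub_cancel_left, hyL]
  · dsimp only
    rcases lt_trichotomy i L with h | h | h
    · rw [if_pos h.le, if_pos (by omega)]
      exact lift_first hP hK hG (hx i h)
    · subst h
      rw [if_pos le_rfl, if_neg (by omega), hxL, show i + 1 - i = 0 + 1 by omega]
      have := hy 0 (by omega)
      rw [hy0] at this
      exact lift_second hP hK hG this
    · rw [if_neg (by omega), if_neg (by omega), show i + 1 - L = (i - L) + 1 by omega]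
      exact lift_second hP hK hG (hy (i - L) (by omega))

end

end Pool.Agent.Helper27.Sh
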