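import Pool.Agent.Helper27.Sh.Serial
set_option autoImplicit false
set_option linter.unusedSectionVars false
set_option linter.unusedVariables false
set_option linter.unusedSimpArgs false

/-!
The serial composition inherits the properties `Good`, and slowness for one more auxiliary function.
-/

namespace Pool.Agent.Helper27.Sh

open Finset

variable {ι κ : Type} [Fintype ι] [Fintype κ]

/-- every increasing path from `0` to `t`, each of whose steps is a step of the shadow vertex rule for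
one of at most `k` auxiliary functions, has at least `N₀` steps -/
def Slow (P : Set (ι → ℝ)) (c t : ι → ℝ) (k N₀ : ℕ) : Prop :=
  ∀ (N : ℕ) (x : ℕ → ι → ℝ) (W : Finset (ι → ℝ)), x 0 = 0 → x N = t →
    (∀ i < N, Step P c (x i) (x (i + 1))) → W.card ≤ k →
    (∀ i < N, ∃ w ∈ W, ShStep P c w (x i) (x (i + 1))) → N₀ ≤ N

/-- every increasing path from `0` to `t` whose steps are shadow edges for auxiliary functions such
that `0` is a shadow vertex has at least `N₀` steps -/
def SlowThin (P : Set (ι → ℝ)) (c t : ι → ℝ) (N₀ : ℕ) : Prop :=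
  ∀ (N : ℕ) (x w : ℕ → ι → ℝ), x 0 = 0 → x N = t →
    (∀ i < N, Step P c (x i) (x (i + 1))) →
    (∀ i < N, ∃ μ : ℝ, OnlyMax P (w i + μ • c) 0) →
    (∀ i < N, ∃ ν : ℝ, Maxi P (w i + ν • c) (x i) ∧ Maxi P (w i + ν • c) (x (i + 1))) → N₀ ≤ N

variable {K T T' : ℝ} {P : Set (ι → ℝ)} {G : Set (κ → ℝ)} {c t : ι → ℝ} {d t' : κ → ℝ}

theorem slow_one {N₀ : ℕ} (ht : t ≠ 0) (h : SlowThin P c t N₀) : Slow P c t 1 N₀ := by
  intro N x W h0 hN hstep hW hw
  have hN0 : 0 < N := by
    rcases Nat.eq_zero_or_pos N with e | e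
    · subst e
      exact absurd (hN.symm.trans h0) ht
    · exact e
  obtain ⟨w, hwW, h1⟩ := hw 0 hN0
  refine h N x (fun _ => w) h0 hN hstep (fun i hi => ?_) (fun i hi => ?_)
  · rw [← h0]; exact h1.1
  · obtain ⟨w', hw', h2⟩ := hw i hi
    have : w' = w := Finset.card_le_one.1 hW _ hw' _ hwW
    rw [this] at h2
    exact h2.2

theorem ext_of_ser (hP : Good P c t T) (hK : 0 ≤ K) (hG : Good G d t' T') {p : ι → ℝ} {y : κ → ℝ}
    (hp : p ∈ P) (hy : y ∈ G) (h : pt K p y ∈ (ser K P G).extremePoints ℝ) :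
    p ∈ P.extremePoints ℝ ∧ y ∈ G.extremePoints ℝ := by
  rw [mem_extremePoints] at h
  have hs := sm_nonneg hK hG hy
  constructor
  · rw [mem_extremePoints]
    refine ⟨hp, fun q hq q' hq' hm => ?_⟩
    obtain ⟨a, b, ha, hb, hab, e⟩ := hm
    have := h.2 _ (pt_mem (K := K) hq hy) _ (pt_mem (K := K) hq' hy) ⟨a, b, ha, hb, hab, by
      rw [← e]
      ext j
      rcases j with j | j
      · simp only [pt, Pi.add_apply, Pi.smul_apply, Sum.elim_inl, smul_eq_mul]
        ring
      · simp only [pt, Pi.add_apply, Pi.smul_apply, Sum.elim_inr, smul_eq_mul]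
        rw [← add_mul, hab, one_mul]⟩
    exact ⟨(pt_inj hK hG hy this.1).1, (pt_inj hK hG hy this.2).1⟩
  · rw [mem_extremePoints]
    refine ⟨hy, fun z hz z' hz' hm => ?_⟩
    obtain ⟨a, b, ha, hb, hab, e⟩ := hm
    have := h.2 _ (pt_mem (K := K) hp hz) _ (pt_mem (K := K) hp hz') ⟨a, b, ha, hb, hab, by
      rw [← e]
      ext j
      rcases j with j | j
      · simp only [pt, Pi.add_apply, Pi.smul_apply, Sum.elim_inl, smul_eq_mul, sum_add_distrib,
          ← mul_sum]
        linear_combination p j * hab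
      · simp [pt]⟩
    exact ⟨(pt_inj hK hG hz this.1).2, (pt_inj hK hG hz' this.2).2⟩

theorem good_ser (hP : Good P c t T) (hK : 0 ≤ K) (hG : Good G d t' T')
    (hd : ∀ y ∈ G, d ⬝ᵥ y ≤ K * ∑ j, y j) :
    Good (ser K P G) (serc K T c d) (pt K t t') (T + T') where
  conv := by
    rintro _ ⟨p, hp, y, hy, rfl⟩ _ ⟨q, hq, z, hz, rfl⟩ a b ha hb hab
    have h1 := sm_nonneg hK hG hy
    have h2 := sm_nonneg hK hG hz
    set s := K * ∑ j, y j with hs
    set r := K * ∑ j, z j with hr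
    have h3 : 0 < a * (1 + s) + b * (1 + r) := by
      have : a * (1 + s) + b * (1 + r) = 1 + (a * s + b * r) := by linear_combination hab
      rw [this]
      positivity
    refine ⟨(a * (1 + s) / (a * (1 + s) + b * (1 + r))) • p +
      (b * (1 + r) / (a * (1 + s) + b * (1 + r))) • q, ?_, a • y + b • z, hG.conv hy hz ha hb hab,
      ?_⟩
    · exact hP.conv hp hq (by positivity) (by positivity) (by field_simp)
    · have h4 : 1 + K * ∑ j, (a * y j + b * z j) = a * (1 + s) + b * (1 + r) := by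
        simp only [sum_add_distrib, ← mul_sum, hs, hr]
        linear_combination -hab
      ext j
      rcases j with j | j
      · simp only [pt, Pi.add_apply, Pi.smul_apply, Sum.elim_inl, smul_eq_mul, ← hs, ← hr]
        rw [h4]
        field_simp
      · simp [pt]
  zero := by rw [← pt_zz K]; exact pt_mem hP.zero hG.zero
  nonneg := by
    rintro _ ⟨p, hp, y, hy, rfl⟩ j
    have h1 := sm_nonneg hK hG hy
    rcases j with j | j
    · exact mul_nonneg (by linarith) (hP.nonneg p hp j)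
    · exact hG.nonneg y hy j
  top := pt_mem hP.top hG.top
  val := by rw [serc_pt, hP.val, hG.val]; ring
  pos := add_pos hP.pos hG.pos
  uniq := by
    rintro _ ⟨p, hp, y, hy, rfl⟩ hne
    have h1 := sm_nonneg hK hG hy
    rw [serc_pt]
    have h2 := hG.le y hy
    by_cases hpt : p = t
    · subst hpt
      have hyt : y ≠ t' := fun e => hne (by rw [e])
      have := hG.uniq y hy hyt
      rw [hP.val]
      linarith
    · have h3 := hP.uniq p hp hpt
      have h4 : 0 ≤ (K * ∑ j, y j) * (T - c ⬝ᵥ p) := mul_nonneg h1 (by linarith)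
      linarith
  gap := by
    intro z hz hne
    obtain ⟨p, hp, y, hy, rfl⟩ := hz.1
    obtain ⟨h5, h6⟩ := ext_of_ser hP hK hG hp hy hz
    have h1 := sm_nonneg hK hG hy
    rw [serc_pt]
    have h2 := hG.le y hy
    by_cases hpt : p = t
    · subst hpt
      have hyt : y ≠ t' := fun e => hne (by rw [e])
      have := hG.gap y h6 hyt
      rw [hP.val]
      linarith
    · have h3 := hP.gap p h5 hpt
      have h4 : (K * ∑ j, y j) * 1 ≤ (K * ∑ j, y j) * (T - c ⬝ᵥ p) :=
        mul_le_mul_of_nonneg_left (by linarith) h1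
      have h7 := hd y hy
      have h8 := hG.pos
      linarith
  bdd := by
    obtain ⟨B, hB⟩ := hP.bdd
    obtain ⟨B', hB'⟩ := hG.bdd
    refine ⟨max ((1 + K * ∑ j : κ, |B'|) * |B|) B', ?_⟩
    rintro _ ⟨p, hp, y, hy, rfl⟩ j
    have h1 := sm_nonneg hK hG hy
    rcases j with j | j
    · refine le_max_of_le_left ?_
      have h2 : K * ∑ j, y j ≤ K * ∑ j : κ, |B'| :=
        mul_le_mul_of_nonneg_left (sum_le_sum fun j _ => (hB' y hy j).trans (le_abs_self _)) hK
      exact mul_le_mul (by linarith) ((hB p hp j).trans (le_abs_self _)) (hP.nonneg p hp j)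
        (by linarith)
    · exact le_max_of_le_right (hB' y hy j)

theorem shstep_first {w : ι ⊕ κ → ℝ} (hK : 0 ≤ K) (hP : Good P c t T) (hG : Good G d t' T')
    {p q : ι → ℝ} (hp : p ∈ P) (hq : q ∈ P)
    (h : ShStep (ser K P G) (serc K T c d) w (pt K p 0) (pt K q 0)) :
    ShStep P c (w ∘ Sum.inl) p q := by
  have key : ∀ (r : ℝ) (x : ι → ℝ), (w + r • serc K T c d) ⬝ᵥ pt K x (0 : κ → ℝ) =
      (w ∘ Sum.inl + r • c) ⬝ᵥ x := by
    intro r x
    have : (w + r • serc K T c d) ∘ Sum.inl = w ∘ Sum.inl + r • c := by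
      ext j; simp [serc]
    rw [dot_pt, this]
    simp
  obtain ⟨⟨μ, h1⟩, ν, h2, h3⟩ := h
  refine ⟨⟨μ, hp, fun x hx hne => ?_⟩, ν, ⟨hp, fun x hx => ?_⟩, hq, fun x hx => ?_⟩
  · have := h1.2 (pt K x 0) (pt_mem hx hG.zero) (fun e => hne (pt_inj hK hG hG.zero e).1)
    rwa [key, key] at this
  · have := h2.2 (pt K x 0) (pt_mem hx hG.zero)
    rwa [key, key] at this
  · have := h3.2 (pt K x 0) (pt_mem hx hG.zero)
    rwa [key, key] at this

/-- the effective auxiliary function over the top of `P` -/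
def eff (K : ℝ) (t : ι → ℝ) (w : ι ⊕ κ → ℝ) : κ → ℝ :=
  fun j => w (Sum.inr j) + K * ((w ∘ Sum.inl) ⬝ᵥ t)

theorem eff_val (hP : Good P c t T) (w : ι ⊕ κ → ℝ) (r : ℝ) (y : κ → ℝ) :
    (w + r • serc K T c d) ⬝ᵥ pt K t y = ((w ∘ Sum.inl) ⬝ᵥ t + r * T) + (eff K t w + r • d) ⬝ᵥ y := by
  rw [add_dotProduct, smul_dotProduct, serc_pt, dot_pt, add_dotProduct, smul_dotProduct, hP.val]
  have : eff K t w ⬝ᵥ y = (w ∘ Sum.inr) ⬝ᵥ y + (K * ∑ j, y j) * ((w ∘ Sum.inl) ⬝ᵥ t) := by
    simp only [dotProduct, eff, Function.comp, add_mul, sum_add_distrib, mul_sum, sum_mul]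
    congr 1
    rw [sum_comm]
    exact sum_congr rfl fun i _ => sum_congr rfl fun j _ => by ring
  rw [this, smul_eq_mul, smul_eq_mul]
  ring

theorem sh_second (hP : Good P c t T) (hG : Good G d t' T') {w : ι ⊕ κ → ℝ} {ν : ℝ} {y : κ → ℝ}
    (hy : y ∈ G) (h : Maxi (ser K P G) (w + ν • serc K T c d) (pt K t y)) :
    Maxi G (eff K t w + ν • d) y := by
  refine ⟨hy, fun z hz => ?_⟩
  have := h.2 _ (pt_mem (K := K) hP.top hz)
  rw [eff_val hP, eff_val hP] at this
  linarith

/-- if some vertex of the first part is a shadow vertex, then `0` is a shadow vertex of the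
second part -/
theorem thin_second (hK : 0 ≤ K) (hP : Good P c t T) (hG : Good G d t' T') {w : ι ⊕ κ → ℝ}
    {μ : ℝ} {p : ι → ℝ} (hp : p ∈ P)
    (h : OnlyMax (ser K P G) (w + μ • serc K T c d) (pt K p 0)) :
    OnlyMax G (eff K t w + μ • d) 0 := by
  refine ⟨hG.zero, fun y hy hne => ?_⟩
  have h1 := h.2 (pt K p y) (pt_mem hp hy) (fun e => hne (pt_inj hK hG hy e).2)
  have h2 := h.maxi.2 (pt K t 0) (pt_mem hP.top hG.zero)
  have h3 := sm_nonneg hK hG hy
  rw [dotProduct_zero]
  have e1 : ∀ (q : ι → ℝ) (z : κ → ℝ), (w + μ • serc K T c d) ⬝ᵥ pt K q z =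
      (1 + K * ∑ j, z j) * ((w ∘ Sum.inl + μ • c) ⬝ᵥ q) + (w ∘ Sum.inr) ⬝ᵥ z +
        μ * (d ⬝ᵥ z - K * T * ∑ j, z j) := by
    intro q z
    rw [dot_pt]
    have e2 : (w + μ • serc K T c d) ∘ Sum.inl = w ∘ Sum.inl + μ • c := by
      ext j; simp [serc]
    have e3 : ((w + μ • serc K T c d) ∘ Sum.inr) ⬝ᵥ z = (w ∘ Sum.inr) ⬝ᵥ z +
        μ * (d ⬝ᵥ z - K * T * ∑ j, z j) := by
      simp only [dotProduct, serc, Function.comp, Pi.add_apply, Pi.smul_apply, Sum.elim_inr,
        smul_eq_mul, add_mul, sum_add_distrib, mul_sum, sub_mul, mul_sub, sum_sub_distrib]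
      simp only [mul_assoc]
    rw [e2, e3]
    ring
  rw [e1, e1] at h1 h2
  simp only [Pi.zero_apply, sum_const_zero, mul_zero, add_zero, one_mul, dotProduct_zero,
    sub_self] at h1 h2
  have e4 : (eff K t w + μ • d) ⬝ᵥ y = (w ∘ Sum.inr) ⬝ᵥ y +
      (K * ∑ j, y j) * ((w ∘ Sum.inl) ⬝ᵥ t) + μ * (d ⬝ᵥ y) := by
    have := eff_val (K := K) (d := d) hP w μ y
    rw [e1, add_dotProduct, smul_dotProduct, hP.val, smul_eq_mul] at this
    linear_combination -this
  have e5 : (w ∘ Sum.inl + μ • c) ⬝ᵥ t = (w ∘ Sum.inl) ⬝ᵥ t + μ * T := by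
    rw [add_dotProduct, smul_dotProduct, hP.val, smul_eq_mul]
  rw [e4]
  rw [e5] at h2
  nlinarith [mul_le_mul_of_nonneg_left h2 h3]

theorem slow_ser {k N₀ : ℕ} (hP : Good P c t T) (hK : 0 ≤ K) (hG : Good G d t' T')
    (hd : ∀ y ∈ G, d ⬝ᵥ y ≤ K * ∑ j, y j) (h1 : Slow P c t k N₀) (h2 : SlowThin G d t' N₀) :
    Slow (ser K P G) (serc K T c d) (pt K t t') (k + 1) N₀ := by
  classical
  intro N x W h0 hN hstep hW hw
  have ht' : t' ≠ 0 := by
    intro e
    have h3 := hG.val
    have h4 := hG.pos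
    rw [e, dotProduct_zero] at h3
    linarith
  have hxN : ¬ (x N ∘ Sum.inr = 0) := by
    rw [hN, pt_inr]; exact ht'
  have hex : ∃ i, ¬ (x i ∘ Sum.inr = (0 : κ → ℝ)) := ⟨N, hxN⟩
  set i₀ := Nat.find hex with hi₀
  have hi₀N : i₀ ≤ N := Nat.find_min' hex hxN
  have hi₀s : ¬ (x i₀ ∘ Sum.inr = (0 : κ → ℝ)) := Nat.find_spec hex
  have hi₀m : ∀ i < i₀, x i ∘ Sum.inr = (0 : κ → ℝ) := fun i hi => by
    have := Nat.find_min hex hi
    push Not at this
    exact this
  have hi₀pos : 0 < i₀ := by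
    rcases Nat.eq_zero_or_pos i₀ with e | e
    · rw [e, h0] at hi₀s
      exact absurd (by ext j; simp) hi₀s
    · exact e
  obtain ⟨e, he⟩ : ∃ e, i₀ = e + 1 := ⟨i₀ - 1, by omega⟩
  -- all vertices of the path are in the composition
  have hmem : ∀ i ≤ N, x i ∈ ser K P G := by
    intro i hi
    rcases Nat.eq_zero_or_pos i with e | e
    · rw [e, h0, ← pt_zz K]; exact pt_mem hP.zero hG.zero
    · obtain ⟨j, rfl⟩ : ∃ j, i = j + 1 := ⟨i - 1, by omega⟩
      exact (hstep j (by omega)).1.right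
  -- the first part
  have hfirst : ∀ i ≤ e, ∃ p ∈ P, x i = pt K p 0 := by
    intro i hi
    obtain ⟨p, hp, y, hy, hx⟩ := hmem i (by omega)
    have h3 := hi₀m i (by omega)
    rw [hx, pt_inr] at h3
    subst h3
    exact ⟨p, hp, hx⟩
  choose! p hpP hp using hfirst
  have hpe : p e = t := by
    by_contra hne
    have h3 := hstep e (by omega)
    have h4 : x e ∈ (ser K P G).extremePoints ℝ := h3.1.ext_left
    rw [hp e le_rfl] at h3 h4
    have h5 := (ext_of_ser hP hK hG (hpP e le_rfl) hG.zero h4).1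
    obtain ⟨q, hq, h6⟩ := first_part hP hK hG hd (hpP e le_rfl) (hP.gap _ h5 hne) h3
    apply hi₀s
    rw [he, h6, pt_inr]
  -- the second part
  have hsecond : ∀ i, i ≤ N - e → ∃ y ∈ G, x (e + i) = pt K t y := by
    intro i
    induction i with
    | zero => intro _; exact ⟨0, hG.zero, by rw [add_zero, hp e le_rfl, hpe]⟩
    | succ i ih =>
      intro hi
      obtain ⟨y, hy, h3⟩ := ih (by omega)
      have h4 := hstep (e + i) (by omega)
      rw [h3] at h4
      exact second_part hP hK hG hy h4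
  choose! y hyG hy using hsecond
  by_cases hcase : ∃ w₀ ∈ W, ∀ i ≤ e, ∀ μ : ℝ, ¬ OnlyMax (ser K P G) (w₀ + μ • serc K T c d) (x i)
  · obtain ⟨w₀, hw₀, hno⟩ := hcase
    have h3 : N₀ ≤ e := by
      refine h1 e p ((W.erase w₀).image fun w => w ∘ Sum.inl) ?_ hpe (fun i hi => ?_) ?_
        (fun i hi => ?_)
      · have := hp 0 (Nat.zero_le _)
        rw [h0, ← pt_zz K] at this
        exact (pt_inj hK hG hG.zero this).1.symm
      · have h4 := hstep i (by omega)
        rw [hp i hi.le, hp (i + 1) hi] at h4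
        refine ⟨edge_first hK hG h4.1, ?_⟩
        have h5 := h4.2
        rw [serc_pt, serc_pt] at h5
        simpa using h5
      · refine card_image_le.trans ?_
        rw [card_erase_of_mem hw₀]
        omega
      · obtain ⟨w, hwW, h4⟩ := hw i (by omega)
        have hne : w ≠ w₀ := by
          rintro rfl
          obtain ⟨μ, h5⟩ := h4.1
          exact hno i hi.le μ h5
        refine ⟨w ∘ Sum.inl, mem_image.2 ⟨w, mem_erase.2 ⟨hne, hwW⟩, rfl⟩, ?_⟩
        rw [hp i hi.le, hp (i + 1) hi] at h4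
        exact shstep_first hK hP hG (hpP i hi.le) (hpP (i + 1) hi) h4
    omega
  · push Not at hcase
    have hwi : ∀ i, i < N - e → ∃ w, (∃ μ : ℝ, OnlyMax G (eff K t w + μ • d) 0) ∧
        ∃ ν : ℝ, Maxi G (eff K t w + ν • d) (y i) ∧ Maxi G (eff K t w + ν • d) (y (i + 1)) := by
      intro i hi
      obtain ⟨w, hwW, h4⟩ := hw (e + i) (by omega)
      refine ⟨w, ?_, ?_⟩
      · obtain ⟨j, hj, μ, h5⟩ := hcase w hwW
        rw [hp j hj] at h5
        exact ⟨μ, thin_second hK hP hG (hpP j hj) h5⟩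
      · obtain ⟨-, ν, h5, h6⟩ := h4
        rw [hy i (by omega)] at h5
        rw [show e + i + 1 = e + (i + 1) by ring, hy (i + 1) (by omega)] at h6
        exact ⟨ν, sh_second hP hG (hyG i (by omega)) h5, sh_second hP hG (hyG (i + 1) (by omega)) h6⟩
    choose! w hw1 hw2 using hwi
    have h3 : N₀ ≤ N - e := by
      refine h2 (N - e) y (fun i => eff K t (w i)) ?_ ?_ (fun i hi => ?_) hw1 hw2
      · have := hy 0 (Nat.zero_le _)
        rw [add_zero, hp e le_rfl, hpe] at this
        exact (pt_inj hK hG hG.zero this).2.symm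
      · have := hy (N - e) le_rfl
        rw [show e + (N - e) = N by omega, hN] at this
        exact (pt_inj hK hG hG.top this).2.symm
      · have h4 := hstep (e + i) (by omega)
        rw [hy i (by omega), show e + i + 1 = e + (i + 1) by ring, hy (i + 1) (by omega)] at h4
        refine ⟨edge_second hP hK hG h4.1, ?_⟩
        have h5 := h4.2
        rw [serc_pt, serc_pt, hP.val] at h5
        simpa using h5
    omega

end Pool.Agent.Helper27.Sh
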