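import Pool.Agent.Helper27.Sh.Build
set_option autoImplicit false
set_option linter.unusedSectionVars false
set_option linter.unusedVariables false
set_option linter.unusedSimpArgs false

/-!
Change of the index type, and exposed edges in the sense of Mathlib.
-/

namespace Pool.Agent.Helper27.Sh

open Finset

theorem edge_iff {ι : Type} [Fintype ι] {P : Set (ι → ℝ)} {x y : ι → ℝ} :
    Edge P x y ↔ IsExposed ℝ P (segment ℝ x y) := by
  classical
  constructor
  · rintro ⟨u, hu⟩ _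
    refine ⟨∑ i, u i • (ContinuousLinearMap.proj i : (ι → ℝ) →L[ℝ] ℝ), ?_⟩
    have h : ∀ z : ι → ℝ, (∑ i, u i • (ContinuousLinearMap.proj i : (ι → ℝ) →L[ℝ] ℝ)) z =
        u ⬝ᵥ z := by
      intro z
      simp [dotProduct]
    ext z
    rw [hu]
    constructor
    · rintro ⟨h1, h2⟩
      exact ⟨h1, fun w hw => by rw [h, h]; exact h2 w hw⟩
    · rintro ⟨h1, h2⟩
      exact ⟨h1, fun w hw => by have := h2 w hw; rw [h, h] at this; exact this⟩
  · intro h
    obtain ⟨l, hl⟩ := h ⟨x, left_mem_segment ℝ x y⟩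
    have hv : ∀ z : ι → ℝ, (fun i => l (Pi.single i 1)) ⬝ᵥ z = l z := by
      intro z
      have h1 : z = ∑ i, z i • (Pi.single i (1 : ℝ) : ι → ℝ) := by
        ext j
        simp [Finset.sum_apply, Pi.single_apply]
      conv_rhs => rw [h1, map_sum]
      simp only [dotProduct, map_smul, smul_eq_mul]
      exact sum_congr rfl fun i _ => mul_comm _ _
    refine ⟨fun i => l (Pi.single i 1), fun z => ?_⟩
    rw [hl]
    constructor
    · rintro ⟨h1, h2⟩
      exact ⟨h1, fun w hw => by rw [hv, hv]; exact h2 w hw⟩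
    · rintro ⟨h1, h2⟩
      exact ⟨h1, fun w hw => by have := h2 w hw; rw [hv, hv] at this; exact this⟩

variable {ι : Type} [Fintype ι] {d : ℕ}

/-- the same set with other indices -/
def tr (e : ι ≃ Fin d) (P : Set (ι → ℝ)) : Set (Fin d → ℝ) := {y | y ∘ e ∈ P}

theorem dot_comp (e : ι ≃ Fin d) (u x : Fin d → ℝ) : (u ∘ e) ⬝ᵥ (x ∘ e) = u ⬝ᵥ x :=
  Equiv.sum_comp e fun i => u i * x i

theorem maxi_tr (e : ι ≃ Fin d) {P : Set (ι → ℝ)} {u x : Fin d → ℝ} :
    Maxi (tr e P) u x ↔ Maxi P (u ∘ e) (x ∘ e) := by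
  constructor
  · rintro ⟨h1, h2⟩
    refine ⟨h1, fun y hy => ?_⟩
    have h3 := h2 (y ∘ e.symm) (by
      show (y ∘ e.symm) ∘ e ∈ P
      rwa [Function.comp_assoc, Equiv.symm_comp_self, Function.comp_id])
    rw [← dot_comp e, ← dot_comp e u x, Function.comp_assoc, Equiv.symm_comp_self,
      Function.comp_id] at h3
    exact h3
  · rintro ⟨h1, h2⟩
    refine ⟨h1, fun y hy => ?_⟩
    rw [← dot_comp e, ← dot_comp e u x]
    exact h2 _ hy

theorem only_tr (e : ι ≃ Fin d) {P : Set (ι → ℝ)} {u x : Fin d → ℝ} :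
    OnlyMax (tr e P) u x ↔ OnlyMax P (u ∘ e) (x ∘ e) := by
  constructor
  · rintro ⟨h1, h2⟩
    refine ⟨h1, fun y hy hne => ?_⟩
    have h3 := h2 (y ∘ e.symm) (by
      show (y ∘ e.symm) ∘ e ∈ P
      rwa [Function.comp_assoc, Equiv.symm_comp_self, Function.comp_id]) (fun h => hne (by
        rw [← h, Function.comp_assoc, Equiv.symm_comp_self, Function.comp_id]))
    rw [← dot_comp e, ← dot_comp e u x, Function.comp_assoc, Equiv.symm_comp_self,
      Function.comp_id] at h3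
    exact h3
  · rintro ⟨h1, h2⟩
    refine ⟨h1, fun y hy hne => ?_⟩
    rw [← dot_comp e, ← dot_comp e u x]
    refine h2 _ hy (fun h => hne ?_)
    have := congrArg (fun z => z ∘ e.symm) h
    simpa [Function.comp_assoc] using this

theorem seg_tr (e : ι ≃ Fin d) {x y z : Fin d → ℝ} :
    z ∈ segment ℝ x y ↔ z ∘ e ∈ segment ℝ (x ∘ e) (y ∘ e) := by
  rw [segment_eq_image', segment_eq_image']
  constructor
  · rintro ⟨θ, hθ, rfl⟩
    exact ⟨θ, hθ, by ext j; simp⟩
  · rintro ⟨θ, hθ, h⟩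
    refine ⟨θ, hθ, ?_⟩
    ext j
    have := congrFun h (e.symm j)
    simpa using this

theorem edge_tr (e : ι ≃ Fin d) {P : Set (ι → ℝ)} {x y : Fin d → ℝ} :
    Edge (tr e P) x y ↔ Edge P (x ∘ e) (y ∘ e) := by
  constructor
  · rintro ⟨u, hu⟩
    refine ⟨u ∘ e, fun z => ?_⟩
    have h1 := hu (z ∘ e.symm)
    rw [seg_tr e, maxi_tr, Function.comp_assoc, Equiv.symm_comp_self, Function.comp_id] at h1
    exact h1
  · rintro ⟨u, hu⟩
    refine ⟨u ∘ e.symm, fun z => ?_⟩
    rw [seg_tr e, maxi_tr, Function.comp_assoc, Equiv.symm_comp_self, Function.comp_id]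
    exact hu _

end Pool.Agent.Helper27.Sh
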